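import Pool.Agent.Lib.MP_00be1d_pr.SignChanges

/-!
# Negative binomial probabilities and a supermartingale inequality
-/

open MeasureTheory Filter Topology Finset

namespace Pool.Agent.Lib.MP_00be1d_pr

/-- Number of coins equal to `b` among the first `n`. -/
def cb (b : Bool) (β : ℕ → Bool) (n : ℕ) : ℕ := ((range n).filter fun t => β t = b).card

lemma cb_zero (b : Bool) (β : ℕ → Bool) : cb b β 0 = 0 := by simp [cb]

lemma cb_succ (b : Bool) (β : ℕ → Bool) (n : ℕ) :
    cb b β (n + 1) = cb b β n + if β n = b then 1 else 0 := by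
  unfold cb
  rw [range_add_one, filter_insert]
  split_ifs with h
  · rw [card_insert_of_notMem (by simp)]
  · rfl

lemma cb_congr (b : Bool) {β β' : ℕ → Bool} {n : ℕ} (h : ∀ t < n, β t = β' t) :
    cb b β n = cb b β' n := by
  unfold cb
  congr 1
  exact filter_congr fun t ht => by rw [h t (mem_range.1 ht)]

lemma cb_mono (b : Bool) (β : ℕ → Bool) : Monotone (cb b β) :=
  monotone_nat_of_le_succ fun n => by rw [cb_succ]; omega

lemma measurableSet_cb (b : Bool) (n k : ℕ) : MeasurableSet {β : ℕ → Bool | cb b β n = k} := by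
  have h : Measurable fun β : ℕ → Bool => cb b β n :=
    measurable_of_prefix _ n fun _ _ h => cb_congr b h
  exact h (measurableSet_singleton k)

lemma fair_real (b : Bool) : fair.real {b} = 1 / 2 := by
  unfold Measure.real
  rw [fair_singleton]; simp

lemma P_real_inter {A : Set (ℕ → Bool)} (hA : MeasurableSet A) (n : ℕ)
    (hdep : ∀ ω e, Function.update ω n e ∈ A ↔ ω ∈ A) (b : Bool) :
    P.real (A ∩ {ω | ω n = b}) = P.real A * (1 / 2) := by
  have h := measure_inter_of_update fair n hA hdep (measurableSet_singleton b)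
  have e : {ω : ℕ → Bool | ω n ∈ ({b} : Set Bool)} = {ω | ω n = b} := by ext; simp
  rw [e] at h
  unfold Measure.real
  have h' : P (A ∩ {ω | ω n = b}) = P A * fair {b} := h
  rw [h', fair_singleton, ENNReal.toReal_mul]
  simp

/-- The binomial law. -/
lemma P_cb (b : Bool) (n k : ℕ) :
    P.real {β : ℕ → Bool | cb b β n = k} = (n.choose k : ℝ) / 2 ^ n := by
  induction n generalizing k with
  | zero =>
    rcases Nat.eq_zero_or_pos k with rfl | hk
    · simp [cb_zero]
    · have : {β : ℕ → Bool | cb b β 0 = k} = ∅ := by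
        ext β; simp [cb_zero]; omega
      rw [this, measureReal_empty, Nat.choose_eq_zero_of_lt hk]; simp
  | succ n ih =>
    have hdep : ∀ k, ∀ (ω : ℕ → Bool) e, Function.update ω n e ∈ {β : ℕ → Bool | cb b β n = k} ↔
        ω ∈ {β : ℕ → Bool | cb b β n = k} := by
      intro k ω e
      simp only [Set.mem_ofPred_eq]
      rw [cb_congr b (β := Function.update ω n e) (β' := ω)
        (fun t ht => Function.update_of_ne ht.ne _ _)]
    rcases Nat.eq_zero_or_pos k with rfl | hk
    · have e : {β : ℕ → Bool | cb b β (n + 1) = 0}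
          = {β | cb b β n = 0} ∩ {β | β n = !b} := by
        ext β
        simp only [Set.mem_ofPred_eq, Set.mem_inter_iff, cb_succ]
        cases h : β n <;> cases b <;> simp
      rw [e, P_real_inter (measurableSet_cb b n 0) n (hdep 0), ih]
      simp [pow_succ, mul_comm]
    · obtain ⟨k, rfl⟩ : ∃ j, k = j + 1 := ⟨k - 1, by omega⟩
      have e : {β : ℕ → Bool | cb b β (n + 1) = k + 1}
          = ({β | cb b β n = k} ∩ {β | β n = b}) ∪ ({β | cb b β n = k + 1} ∩ {β | β n = !b}) := by
        ext β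
        simp only [Set.mem_ofPred_eq, Set.mem_inter_iff, Set.mem_union, cb_succ]
        cases h : β n <;> cases b <;> simp
      have hdisj : Disjoint ({β : ℕ → Bool | cb b β n = k} ∩ {β | β n = b})
          ({β | cb b β n = k + 1} ∩ {β | β n = !b}) := by
        rw [Set.disjoint_left]
        rintro β ⟨_, h2⟩ ⟨_, h3⟩
        simp only [Set.mem_ofPred_eq] at h2 h3
        rw [h2] at h3
        cases b <;> simp at h3
      have hm2 : MeasurableSet ({β : ℕ → Bool | cb b β n = k + 1} ∩ {β | β n = !b}) :=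
        (measurableSet_cb b n (k + 1)).inter
          (measurableSet_eq_fun (measurable_pi_apply n) measurable_const)
      rw [e, measureReal_union hdisj hm2,
        P_real_inter (measurableSet_cb b n k) n (hdep k),
        P_real_inter (measurableSet_cb b n (k + 1)) n (hdep (k + 1)), ih, ih, Nat.choose_succ_succ]
      push_cast
      rw [pow_succ]
      ring

/-- Among the first `i + j` coins exactly `i` are equal to `b` and the last one is. -/
def Nb (b : Bool) (β : ℕ → Bool) (i j : ℕ) : Prop :=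
  cb b β (i + j) = i ∧ (0 < i + j → β (i + j - 1) = b)

/-- The negative binomial weights. -/
noncomputable def pp (i j : ℕ) : ℝ :=
  if i = 0 then (if j = 0 then 1 else 0) else ((i + j - 1).choose j : ℝ) / 2 ^ (i + j)

lemma pp_nonneg (i j : ℕ) : 0 ≤ pp i j := by
  unfold pp
  split_ifs <;> positivity

lemma measurableSet_Nb (b : Bool) (i j : ℕ) : MeasurableSet {β : ℕ → Bool | Nb b β i j} := by
  have h : Measurable fun β : ℕ → Bool => Nb b β i j := by
    refine measurable_of_prefix _ (i + j) fun β β' h => ?_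
    unfold Nb
    rw [cb_congr b h]
    rcases Nat.eq_zero_or_pos (i + j) with h0 | h0
    · simp [h0]
    · rw [h (i + j - 1) (by omega)]
  exact measurableSet_setOfPred.2 h

lemma P_Nb (b : Bool) (i j : ℕ) : P.real {β : ℕ → Bool | Nb b β i j} = pp i j := by
  unfold pp
  rcases Nat.eq_zero_or_pos i with rfl | hi
  · rw [if_pos rfl]
    rcases Nat.eq_zero_or_pos j with rfl | hj
    · simp [Nb, cb_zero]
    · rw [if_neg (by omega)]
      have : {β : ℕ → Bool | Nb b β 0 j} = ∅ := by
        ext β
        simp only [Nb, Set.mem_ofPred_eq, Set.mem_empty_iff_false, iff_false, zero_add]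
        rintro ⟨h1, h2⟩
        have h3 := h2 hj
        obtain ⟨j, rfl⟩ : ∃ k, j = k + 1 := ⟨j - 1, by omega⟩
        rw [cb_succ] at h1
        simp only [Nat.add_sub_cancel] at h3
        rw [if_pos h3] at h1
        omega
      rw [this, measureReal_empty]
  · rw [if_neg (by omega)]
    obtain ⟨i, rfl⟩ : ∃ k, i = k + 1 := ⟨i - 1, by omega⟩
    have e : {β : ℕ → Bool | Nb b β (i + 1) j} = {β | cb b β (i + j) = i} ∩ {β | β (i + j) = b} := by
      ext β
      have e1 : i + 1 + j = i + j + 1 := by ring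
      have e2 : i + j + 1 - 1 = i + j := by omega
      simp only [Nb, Set.mem_ofPred_eq, Set.mem_inter_iff, e1, e2, cb_succ]
      constructor
      · rintro ⟨h1, h2⟩
        have h3 := h2 (by omega)
        rw [if_pos h3] at h1
        exact ⟨by omega, h3⟩
      · rintro ⟨h1, h2⟩
        rw [if_pos h2]
        exact ⟨by omega, fun _ => h2⟩
    rw [e, P_real_inter (measurableSet_cb b (i + j) i) (i + j), P_cb]
    · have e3 : i + 1 + j - 1 = i + j := by omega
      have e4 : i + 1 + j = i + j + 1 := by ring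
      have e5 : (i + j).choose i = (i + j).choose j := by
        rw [Nat.choose_symm_add]
      rw [e3, e4, e5, pow_succ]
      field_simp
    · intro ω e
      simp only [Set.mem_ofPred_eq]
      rw [cb_congr b (β := Function.update ω (i + j) e) (β' := ω)
        (fun t ht => Function.update_of_ne ht.ne _ _)]

lemma Nb_disjoint (b : Bool) (β : ℕ → Bool) {i j j' : ℕ} (h : Nb b β i j) (h' : Nb b β i j')
    (hlt : j < j') : False := by
  have h1 := h'.2 (by omega)
  have h2 := h'.1
  obtain ⟨k, hk⟩ : ∃ k, i + j' = k + 1 := ⟨i + j' - 1, by omega⟩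
  rw [hk] at h1 h2
  simp only [Nat.add_sub_cancel] at h1
  rw [cb_succ, if_pos h1] at h2
  have h3 := cb_mono b β (show i + j ≤ k by omega)
  rw [h.1] at h3
  omega

lemma sum_pp_le_one (i J : ℕ) : ∑ j ∈ range J, pp i j ≤ 1 := by
  have h := measureReal_biUnion_finset (μ := P) (s := range J)
    (f := fun j => {β : ℕ → Bool | Nb false β i j})
    (fun a _ c _ hac => by
      simp only [Function.onFun]
      rw [Set.disjoint_left]
      intro β h1 h2
      rcases lt_or_gt_of_ne hac with hlt | hlt
      · exact Nb_disjoint false β h1 h2 hlt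
      · exact Nb_disjoint false β h2 h1 hlt)
    (fun j _ => measurableSet_Nb false i j)
  simp only [P_Nb] at h
  rw [← h]
  exact measureReal_le_one

lemma pp_succ {i : ℕ} (hi : 0 < i) (J : ℕ) :
    ((i : ℝ) + J) * pp i J = 2 * (J + 1) * pp i (J + 1) := by
  unfold pp
  rw [if_neg (by omega), if_neg (by omega)]
  have e1 : i + (J + 1) - 1 = i + J := by omega
  obtain ⟨k, rfl⟩ : ∃ k, i = k + 1 := ⟨i - 1, by omega⟩
  have e2 : k + 1 + J - 1 = k + J := by omega
  rw [e1, e2]
  have h : (k + 1 + J) * (k + J).choose J = (k + 1 + J).choose (J + 1) * (J + 1) := by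
    have := Nat.add_one_mul_choose_eq (k + J) J
    have e3 : k + 1 + J = k + J + 1 := by ring
    rw [e3]; exact this
  have h' : ((k : ℝ) + 1 + J) * ((k + J).choose J : ℝ)
      = ((k + 1 + J).choose (J + 1) : ℝ) * (J + 1) := by exact_mod_cast h
  have e4 : k + 1 + (J + 1) = k + 1 + J + 1 := by ring
  rw [e4, pow_succ]
  push_cast
  field_simp
  linarith

lemma telescope {i : ℕ} (hi : 0 < i) (J : ℕ) :
    ∑ j ∈ range (J + 1), ((i : ℝ) - j) * pp i j = ((i : ℝ) + J) * pp i J := by
  induction J with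
  | zero => simp
  | succ J ih =>
    rw [sum_range_succ, ih, pp_succ hi]
    push_cast
    ring

/-- The supermartingale inequality. -/
lemma superharmonic {m i : ℕ} (him : i ≤ m) {s : ℝ} (hs : 0 < s) (hs2 : 2 * ((m : ℝ) + 1) ≤ s ^ 2) :
    ∑ j ∈ range (m + 1), pp i j * ((m : ℝ) + s - j) ≤ (m : ℝ) + s - i := by
  rcases Nat.eq_zero_or_pos i with rfl | hi
  · have : ∀ j ∈ range (m + 1), pp 0 j * ((m : ℝ) + s - j) = if j = 0 then (m : ℝ) + s else 0 := by
      intro j _
      unfold pp
      rw [if_pos rfl]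
      split_ifs with h
      · subst h; simp
      · simp
    rw [sum_congr rfl this]
    simp
  have him' : (i : ℝ) ≤ m := by exact_mod_cast him
  have hi' : (1 : ℝ) ≤ i := by exact_mod_cast hi
  set r : ℕ → ℝ := fun j => ((i : ℝ) + j) / (j + s - i) with hr
  have hden : ∀ j : ℕ, m ≤ j → 0 < (j : ℝ) + s - i := by
    intro j hj
    have : (m : ℝ) ≤ j := by exact_mod_cast hj
    linarith
  -- the key inequality on the ratio
  have hstep : ∀ j : ℕ, m ≤ j → r j * pp i j ≤ (1 + r (j + 1)) * pp i (j + 1) := by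
    intro j hj
    have hjm : (m : ℝ) ≤ j := by exact_mod_cast hj
    have d1 := hden j hj
    have d2 : 0 < ((j + 1 : ℕ) : ℝ) + s - i := hden (j + 1) (by omega)
    push_cast at d2
    have e1 : r j * pp i j = (2 * (j + 1) * pp i (j + 1)) / (j + s - i) := by
      simp only [hr]
      rw [div_mul_eq_mul_div, pp_succ hi]
    have e2 : 1 + r (j + 1) = (2 * (j + 1) + s) / (j + 1 + s - i) := by
      simp only [hr]
      push_cast
      rw [eq_div_iff d2.ne', add_mul, div_mul_cancel₀ _ d2.ne']
      ring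
    rw [e1, e2, div_mul_eq_mul_div, div_le_div_iff₀ d1 d2]
    have hp := pp_nonneg i (j + 1)
    have key : 2 * ((j : ℝ) + 1) * (j + 1 + s - i) ≤ (2 * (j + 1) + s) * (j + s - i) := by
      have h2s : 2 ≤ s := by
        have hm0 : (1 : ℝ) ≤ m := hi'.trans him'
        nlinarith
      nlinarith [mul_nonneg (sub_nonneg.2 h2s) (sub_nonneg.2 hjm), mul_nonneg hs.le (sub_nonneg.2 him')]
    calc 2 * ((j : ℝ) + 1) * pp i (j + 1) * (j + 1 + s - i)
        = (2 * ((j : ℝ) + 1) * (j + 1 + s - i)) * pp i (j + 1) := by ring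
      _ ≤ ((2 * (j + 1) + s) * (j + s - i)) * pp i (j + 1) := mul_le_mul_of_nonneg_right key hp
      _ = (2 * (↑j + 1) + s) * pp i (j + 1) * (↑j + s - ↑i) := by ring
  have hpartial : ∀ k : ℕ, r m * pp i m - r (m + k) * pp i (m + k)
      ≤ ∑ j ∈ range (m + k + 1), pp i j - ∑ j ∈ range (m + 1), pp i j := by
    intro k
    induction k with
    | zero => simp
    | succ k ih =>
      have e : m + (k + 1) = m + k + 1 := by ring
      rw [e, sum_range_succ _ (m + k + 1)]
      have := hstep (m + k) (by omega)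
      linarith
  have hsummable : Summable (pp i) :=
    summable_of_sum_range_le (pp_nonneg i) (sum_pp_le_one i)
  have hlim : Tendsto (fun k : ℕ => r (m + k) * pp i (m + k)) atTop (𝓝 0) := by
    have h0 : Tendsto (fun k : ℕ => (2 * (m : ℝ) / s + 1) * pp i (m + k)) atTop (𝓝 0) := by
      have := (hsummable.tendsto_atTop_zero.comp (tendsto_add_atTop_nat m)).const_mul
        (2 * (m : ℝ) / s + 1)
      rw [mul_zero] at this
      refine this.congr fun k => ?_
      simp only [Function.comp_apply, Nat.add_comm]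
    refine squeeze_zero (fun k => ?_) (fun k => ?_) h0
    · refine mul_nonneg ?_ (pp_nonneg _ _)
      exact div_nonneg (by positivity) (hden (m + k) (by omega)).le
    · refine mul_le_mul_of_nonneg_right ?_ (pp_nonneg _ _)
      simp only [hr]
      have hmk : (m : ℝ) ≤ ((m + k : ℕ) : ℝ) := by exact_mod_cast Nat.le_add_right m k
      rw [div_le_iff₀ (hden (m + k) (by omega))]
      have h1 : s ≤ ((m + k : ℕ) : ℝ) + s - i := by linarith
      have h2 : 2 * (m : ℝ) / s * s ≤ 2 * (m : ℝ) / s * (((m + k : ℕ) : ℝ) + s - i) :=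
        mul_le_mul_of_nonneg_left h1 (by positivity)
      rw [div_mul_cancel₀ _ hs.ne'] at h2
      nlinarith
  have hmain : ∑ j ∈ range (m + 1), pp i j ≤ 1 - r m * pp i m := by
    have : ∀ k : ℕ, ∑ j ∈ range (m + 1), pp i j ≤ 1 - r m * pp i m + r (m + k) * pp i (m + k) := by
      intro k
      have h1 := hpartial k
      have h2 := sum_pp_le_one i (m + k + 1)
      linarith
    have hl : Tendsto (fun k : ℕ => 1 - r m * pp i m + r (m + k) * pp i (m + k)) atTop
        (𝓝 (1 - r m * pp i m + 0)) := hlim.const_add _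
    rw [add_zero] at hl
    exact ge_of_tendsto' hl this
  have e1 : ∑ j ∈ range (m + 1), pp i j * ((m : ℝ) + s - j)
      = ((m : ℝ) + s - i) * ∑ j ∈ range (m + 1), pp i j
        + ∑ j ∈ range (m + 1), ((i : ℝ) - j) * pp i j := by
    rw [mul_sum, ← sum_add_distrib]
    refine sum_congr rfl fun j _ => ?_
    ring
  have hd : 0 < (m : ℝ) + s - i := hden m le_rfl
  rw [e1, telescope hi]
  have h3 : ((m : ℝ) + s - i) * ∑ j ∈ range (m + 1), pp i j
      ≤ ((m : ℝ) + s - i) * (1 - r m * pp i m) := mul_le_mul_of_nonneg_left hmain hd.le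
  have h4 : ((m : ℝ) + s - i) * (r m * pp i m) = ((i : ℝ) + m) * pp i m := by
    simp only [hr]
    rw [← mul_assoc, mul_div_cancel₀ _ hd.ne']
  linarith

/-- `C(2m, m)/4^m ≤ 1/√(2m+1)` in squared form. -/
lemma central_bound (m : ℕ) :
    (((2 * m).choose m : ℝ) / 2 ^ (2 * m)) ^ 2 * (2 * m + 1) ≤ 1 := by
  induction m with
  | zero => simp
  | succ m ih =>
    have h := Nat.succ_mul_centralBinom_succ m
    simp only [Nat.centralBinom] at h
    have h' : ((m : ℝ) + 1) * ((2 * (m + 1)).choose (m + 1) : ℝ)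
        = 2 * (2 * m + 1) * ((2 * m).choose m : ℝ) := by exact_mod_cast h
    have hm : (0 : ℝ) < (m : ℝ) + 1 := by positivity
    have e : ((2 * (m + 1)).choose (m + 1) : ℝ)
        = 2 * (2 * m + 1) * ((2 * m).choose m : ℝ) / (m + 1) := by
      rw [eq_div_iff hm.ne']; linarith
    have e2 : (2 : ℝ) ^ (2 * (m + 1)) = 2 ^ (2 * m) * 4 := by
      rw [show 2 * (m + 1) = 2 * m + 2 by ring, pow_add]; norm_num
    set a : ℝ := ((2 * m).choose m : ℝ) / 2 ^ (2 * m) with ha
    have e3 : ((2 * (m + 1)).choose (m + 1) : ℝ) / 2 ^ (2 * (m + 1))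
        = a * ((2 * m + 1) / (2 * (m + 1))) := by
      rw [e, e2, ha]
      field_simp
      ring
    rw [e3]
    have hb : ((2 * (m : ℝ) + 1) / (2 * (m + 1))) ^ 2 * (2 * ((m + 1 : ℕ) : ℝ) + 1)
        ≤ 2 * m + 1 := by
      rw [div_pow, div_mul_eq_mul_div, div_le_iff₀ (by positivity)]
      push_cast
      nlinarith [sq_nonneg (m : ℝ)]
    calc (a * ((2 * (m : ℝ) + 1) / (2 * (m + 1)))) ^ 2 * (2 * ((m + 1 : ℕ) : ℝ) + 1)
        = a ^ 2 * (((2 * (m : ℝ) + 1) / (2 * (m + 1))) ^ 2 * (2 * ((m + 1 : ℕ) : ℝ) + 1)) := by ring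
      _ ≤ a ^ 2 * (2 * m + 1) := mul_le_mul_of_nonneg_left hb (sq_nonneg _)
      _ ≤ 1 := ih

end Pool.Agent.Lib.MP_00be1d_pr
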