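import Pool.Agent.Lib.MP_00be1d_pr.Stack

/-!
# Four favorites infinitely often, and translation to general simple random walks
-/

open MeasureTheory Filter Topology Finset ProbabilityTheory

namespace Pool.Agent.Lib.MP_00be1d_pr

/-- The canonical version. -/
theorem ae_frequently_four :
    ∀ᵐ ω ∂P, ∃ᶠ n in atTop, ∃ s : Finset ℤ, s.card = 4 ∧ ∀ x ∈ s, ∀ y, xi ω y n ≤ xi ω x n := by
  filter_upwards [ae_sign_changes, ae_unbounded, ae_not_bad] with ω h1 h2 h3
  rw [frequently_atTop]
  intro N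
  obtain ⟨m₀, hm₀⟩ := eventually_atTop.1 h3
  obtain ⟨n₀, hn₀⟩ := h2 m₀
  obtain ⟨n₁, hn₁, hlt₁⟩ := (h1 (max N n₀)).2
  obtain ⟨n₂, hn₂, hlt₂⟩ := (h1 n₁).1
  obtain ⟨n, ha, hb, hc, hd, he⟩ := exists_tie ω hn₂ hlt₁.le hlt₂
  have hNn : N ≤ n := by omega
  have hn0n : n₀ ≤ n := by omega
  refine ⟨n, hNn, ?_⟩
  rcases tie_four_or_bad ω hc hd he with h | h
  · exact h
  · exfalso
    have hmono := max_le_max (Mp_mono ω hn0n) (Mm_mono ω hn0n)
    rw [← hc, max_self] at hmono
    exact hm₀ (Mp ω n) (by omega) ⟨n, h⟩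

lemma upLocalTime_S (ω : ℕ → Bool) (x : ℤ) (n : ℕ) : upLocalTime (S ω) x n = U ω x n := by
  unfold upLocalTime U
  symm
  refine card_bij (fun k _ => k + 1) ?_ ?_ ?_
  · intro k hk
    rw [mem_filter, mem_range] at hk
    rw [mem_filter, mem_Icc]
    refine ⟨by omega, ?_, ?_⟩
    · rw [Nat.add_sub_cancel]; exact hk.2.1
    · rw [S_succ, hk.2.1, hk.2.2, stp_true]
  · intro a _ b _ h
    omega
  · intro k hk
    rw [mem_filter, mem_Icc] at hk
    obtain ⟨⟨hk1, hk2⟩, hk3, hk4⟩ := hk
    refine ⟨k - 1, ?_, by omega⟩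
    rw [mem_filter, mem_range]
    refine ⟨by omega, hk3, ?_⟩
    have e : k = k - 1 + 1 := by omega
    rw [e, S_succ, hk3] at hk4
    cases hc : ω (k - 1)
    · rw [hc, stp_false] at hk4; omega
    · rfl

lemma downLocalTime_S (ω : ℕ → Bool) (x : ℤ) (n : ℕ) : downLocalTime (S ω) x n = D ω x n := by
  unfold downLocalTime D
  symm
  refine card_bij (fun k _ => k + 1) ?_ ?_ ?_
  · intro k hk
    rw [mem_filter, mem_range] at hk
    rw [mem_filter, mem_Icc]
    refine ⟨by omega, ?_, ?_⟩
    · rw [Nat.add_sub_cancel]; exact hk.2.1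
    · rw [S_succ, hk.2.1, hk.2.2, stp_false]; ring
  · intro a _ b _ h
    omega
  · intro k hk
    rw [mem_filter, mem_Icc] at hk
    obtain ⟨⟨hk1, hk2⟩, hk3, hk4⟩ := hk
    refine ⟨k - 1, ?_, by omega⟩
    rw [mem_filter, mem_range]
    refine ⟨by omega, hk3, ?_⟩
    have e : k = k - 1 + 1 := by omega
    rw [e, S_succ, hk3] at hk4
    cases hc : ω (k - 1)
    · rfl
    · rw [hc, stp_true] at hk4; omega

lemma oneSideLocalTime_S (ω : ℕ → Bool) (x : ℤ) (n : ℕ) :
    oneSideLocalTime (S ω) x n = xi ω x n := by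
  unfold oneSideLocalTime xi
  rw [upLocalTime_S, downLocalTime_S]

lemma xi_pos_imp (ω : ℕ → Bool) (x : ℤ) (n : ℕ) (h : 0 < xi ω x n) : |x| ≤ n := by
  unfold xi at h
  rcases lt_max_iff.1 h with h | h
  · obtain ⟨k, hk⟩ := card_pos.1 h
    rw [mem_filter, mem_range] at hk
    have := abs_S_le ω k
    rw [hk.2.1] at this
    omega
  · obtain ⟨k, hk⟩ := card_pos.1 h
    rw [mem_filter, mem_range] at hk
    have := abs_S_le ω k
    rw [hk.2.1] at this
    omega

lemma xi_zero_pos (ω : ℕ → Bool) {n : ℕ} (hn : 1 ≤ n) : 0 < xi ω 0 n := by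
  unfold xi
  cases h : ω 0
  · refine lt_max_of_lt_right ?_
    have h1 : D ω 0 1 = 1 := by
      rw [D_succ, D_zero, S_zero, h]; simp
    have h2 := D_mono ω 0 hn
    omega
  · refine lt_max_of_lt_left ?_
    have h1 : U ω 0 1 = 1 := by
      rw [U_succ, U_zero, S_zero, h]; simp
    have h2 := U_mono ω 0 hn
    omega

lemma favoriteSites_finite (ω : ℕ → Bool) {n : ℕ} (hn : 1 ≤ n) :
    (favoriteSites (S ω) n).Finite := by
  refine (Set.finite_Icc (-(n : ℤ)) n).subset fun x hx => ?_
  have h1 : xi ω 0 n ≤ xi ω x n := by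
    have := hx 0
    rwa [oneSideLocalTime_S, oneSideLocalTime_S] at this
  have h2 := xi_pos_imp ω x n (lt_of_lt_of_le (xi_zero_pos ω hn) h1)
  rw [abs_le] at h2
  exact h2

/-- The coin-tossing version in terms of `favoriteSites`. -/
theorem ae_frequently_ncard :
    ∀ᵐ ω ∂P, ∃ᶠ n in atTop, 4 ≤ (favoriteSites (S ω) n).ncard := by
  filter_upwards [ae_frequently_four] with ω hω
  refine (hω.and_eventually (eventually_ge_atTop 1)).mono ?_
  rintro n ⟨⟨s, hs, hfav⟩, hn⟩
  rw [← hs, ← Set.ncard_coe_finset s]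
  refine Set.ncard_le_ncard (fun x hx y => ?_) (favoriteSites_finite ω hn)
  rw [oneSideLocalTime_S, oneSideLocalTime_S]
  exact hfav x hx y

/-! ### Translation to a general simple random walk -/

lemma measurable_favorite_event :
    MeasurableSet {ω : ℕ → Bool | ∃ᶠ n in atTop, 4 ≤ (favoriteSites (S ω) n).ncard} := by
  have e : {ω : ℕ → Bool | ∃ᶠ n in atTop, 4 ≤ (favoriteSites (S ω) n).ncard}
      = ⋂ N, ⋃ n, ⋃ (_ : N ≤ n), {ω | 4 ≤ (favoriteSites (S ω) n).ncard} := by
    ext ω
    simp only [frequently_atTop, Set.mem_ofPred_eq, Set.mem_iInter, Set.mem_iUnion, exists_prop]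
  rw [e]
  refine MeasurableSet.iInter fun N => MeasurableSet.iUnion fun n => MeasurableSet.iUnion fun _ => ?_
  have : Measurable fun ω : ℕ → Bool => 4 ≤ (favoriteSites (S ω) n).ncard := by
    refine measurable_of_prefix _ n fun ω ω' h => ?_
    have e2 : favoriteSites (S ω) n = favoriteSites (S ω') n := by
      unfold favoriteSites
      have e3 : ∀ x, oneSideLocalTime (S ω) x n = oneSideLocalTime (S ω') x n := by
        intro x
        rw [oneSideLocalTime_S, oneSideLocalTime_S]
        unfold xi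
        rw [U_congr h, D_congr h]
      simp only [e3]
    rw [e2]
  exact measurableSet_setOfPred.2 this

/-- Favorite one-side sites of a simple random walk on an arbitrary probability space. -/
theorem ae_frequently_ncard_general {Ω : Type*} [MeasurableSpace Ω] (Pr : Measure Ω)
    [IsProbabilityMeasure Pr] (X : ℕ → Ω → ℤ) (hX : ∀ k, Measurable (X k)) (hindep : iIndepFun X Pr)
    (hup : ∀ k, Pr {ω | X k ω = 1} = 1 / 2) (hdown : ∀ k, Pr {ω | X k ω = -1} = 1 / 2) :
    ∀ᵐ ω ∂Pr, ∃ᶠ n in atTop,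
      4 ≤ (favoriteSites (fun m => ∑ k ∈ range m, X k ω) n).ncard := by
  set b : ℤ → Bool := fun z => decide (z = 1) with hb
  have hbm : Measurable b := Measurable.of_discrete
  set Y : ℕ → Ω → Bool := fun k => b ∘ X k with hY
  have hYm : ∀ k, Measurable (Y k) := fun k => hbm.comp (hX k)
  have hYi : iIndepFun Y Pr := hindep.comp (fun _ => b) (fun _ => hbm)
  have hlaw : ∀ k, Pr.map (Y k) = fair := by
    intro k
    refine Measure.ext_of_singleton fun c => ?_
    rw [Measure.map_apply (hYm k) (measurableSet_singleton c), fair_singleton]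
    cases c
    · have e : Y k ⁻¹' {false} = {ω | X k ω = 1}ᶜ := by
        ext ω; simp [hY, hb]
      have hm1 : MeasurableSet {ω | X k ω = 1} := (hX k) (measurableSet_singleton 1)
      rw [e, prob_compl_eq_one_sub hm1, hup k]
      simp
    · have e : Y k ⁻¹' {true} = {ω | X k ω = 1} := by
        ext ω; simp [hY, hb]
      rw [e, hup k]
  have hmap : Pr.map (fun ω k => Y k ω) = P := by
    rw [hYi.map_fun_eq_infinitePi_map hYm]
    unfold P
    congr 1
    funext k
    exact hlaw k
  have hYmeas : Measurable fun ω k => Y k ω := measurable_pi_iff.2 hYm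
  have hae : ∀ᵐ ω ∂Pr, ∃ᶠ n in atTop, 4 ≤ (favoriteSites (S fun k => Y k ω) n).ncard := by
    have h := ae_frequently_ncard
    rw [← hmap, ae_map_iff hYmeas.aemeasurable measurable_favorite_event] at h
    exact h
  have hpm : ∀ᵐ ω ∂Pr, ∀ k, X k ω = stp (Y k ω) := by
    rw [ae_all_iff]
    intro k
    have hm1 : MeasurableSet {ω | X k ω = 1} := (hX k) (measurableSet_singleton 1)
    have hm2 : MeasurableSet {ω | X k ω = -1} := (hX k) (measurableSet_singleton (-1))
    have hdisj : Disjoint {ω | X k ω = 1} {ω | X k ω = -1} := by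
      rw [Set.disjoint_left]
      intro ω h1 h2
      simp only [Set.mem_ofPred_eq] at h1 h2
      omega
    have hone : Pr ({ω | X k ω = 1} ∪ {ω | X k ω = -1}) = 1 := by
      rw [measure_union hdisj hm2, hup k, hdown k]
      exact ENNReal.add_halves 1
    have hz : Pr ({ω | X k ω = 1} ∪ {ω | X k ω = -1})ᶜ = 0 := by
      rw [prob_compl_eq_one_sub (hm1.union hm2), hone]
      simp
    rw [measure_eq_zero_iff_ae_notMem] at hz
    filter_upwards [hz] with ω hω
    rw [Set.notMem_compl_iff] at hω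
    rcases hω with h | h
    · have h' : X k ω = 1 := h
      simp [hY, hb, h', stp]
    · have h' : X k ω = -1 := h
      simp [hY, hb, h', stp]
  filter_upwards [hae, hpm] with ω h1 h2
  have e : (fun m => ∑ k ∈ range m, X k ω) = S fun k => Y k ω := by
    funext m
    unfold S
    exact sum_congr rfl fun k _ => h2 k
  rw [e]
  exact h1

end Pool.Agent.Lib.MP_00be1d_pr
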