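import Pool.Agent.Lib.MP_00be1d_pr.Walk

/-!
# The fair coin-tossing measure: concatenation, flip, density lemma
-/

open MeasureTheory Filter Topology

namespace Pool.Agent.Lib.MP_00be1d_pr

/-- The law of a fair coin. -/
noncomputable def fair : Measure Bool := (PMF.uniformOfFintype Bool).toMeasure

instance : IsProbabilityMeasure fair := by unfold fair; infer_instance

lemma fair_singleton (b : Bool) : fair {b} = 1 / 2 := by
  unfold fair
  rw [PMF.toMeasure_apply_singleton _ _ (measurableSet_singleton b)]
  simp

/-- The coin-tossing measure. -/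
noncomputable def P : Measure (ℕ → Bool) := Measure.infinitePi fun _ : ℕ => fair

instance : IsProbabilityMeasure P := by unfold P; infer_instance

/-- Resampling one coordinate of a product measure. -/
lemma map_update_infinitePi {ι : Type*} {E : Type*} [MeasurableSpace E] [DecidableEq ι]
    (ν : Measure E) [IsProbabilityMeasure ν] (i : ι) :
    ((Measure.infinitePi fun _ : ι => ν).prod ν).map
      (fun p => Function.update p.1 i p.2) = Measure.infinitePi fun _ : ι => ν := by
  have hm : Measurable fun p : (ι → E) × E => Function.update p.1 i p.2 := by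
    refine measurable_pi_iff.2 fun k => ?_
    by_cases hk : k = i
    · subst hk
      simp only [Function.update_self]
      exact measurable_snd
    · simp only [Function.update_of_ne hk]
      exact (measurable_pi_apply k).comp measurable_fst
  refine Measure.eq_infinitePi _ fun s t ht => ?_
  rw [Measure.map_apply hm (MeasurableSet.pi s.countable_toSet fun i _ => ht i)]
  have hpre : (fun p : (ι → E) × E => Function.update p.1 i p.2) ⁻¹' (Set.pi (s : Set ι) t)
      = (Set.pi ((s.erase i : Finset ι) : Set ι) t) ×ˢ (if i ∈ s then t i else Set.univ) := by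
    ext p
    simp only [Set.mem_preimage, Set.mem_pi, Finset.mem_coe, Set.mem_prod, Finset.mem_erase]
    constructor
    · intro h
      refine ⟨fun j hj => ?_, ?_⟩
      · have := h j hj.2
        rwa [Function.update_of_ne hj.1] at this
      · split_ifs with hn
        · have := h i hn
          rwa [Function.update_self] at this
        · trivial
    · rintro ⟨h1, h2⟩ j hj
      by_cases hin : j = i
      · subst hin
        rw [Function.update_self]
        rwa [if_pos hj] at h2
      · rw [Function.update_of_ne hin]
        exact h1 j ⟨hin, hj⟩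
  rw [hpre, Measure.prod_prod, Measure.infinitePi_pi _ (fun i _ => ht i)]
  by_cases hn : i ∈ s
  · rw [if_pos hn, Finset.prod_erase_mul s _ hn]
  · rw [if_neg hn, measure_univ, mul_one, Finset.erase_eq_of_notMem hn]

lemma measurable_update_pair' {ι : Type*} {E : Type*} [MeasurableSpace E] [DecidableEq ι] (i : ι) :
    Measurable fun p : (ι → E) × E => Function.update p.1 i p.2 := by
  refine measurable_pi_iff.2 fun k => ?_
  by_cases hk : k = i
  · subst hk
    simp only [Function.update_self]
    exact measurable_snd
  · simp only [Function.update_of_ne hk]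
    exact (measurable_pi_apply k).comp measurable_fst

/-- An event which does not depend on coordinate `i` is independent of coordinate `i`. -/
lemma measure_inter_of_update {ι : Type*} {E : Type*} [MeasurableSpace E] [DecidableEq ι]
    (ν : Measure E) [IsProbabilityMeasure ν] (i : ι) {A : Set (ι → E)} (hA : MeasurableSet A)
    (hdep : ∀ ω e, Function.update ω i e ∈ A ↔ ω ∈ A) {B : Set E} (hB : MeasurableSet B) :
    (Measure.infinitePi fun _ : ι => ν) (A ∩ {ω | ω i ∈ B})
      = (Measure.infinitePi fun _ : ι => ν) A * ν B := by
  have hm : MeasurableSet (A ∩ {ω : ι → E | ω i ∈ B}) :=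
    hA.inter (measurable_pi_apply i hB)
  conv_lhs => rw [← map_update_infinitePi ν i]
  rw [Measure.map_apply (measurable_update_pair' i) hm, ← Measure.prod_prod]
  congr 1
  ext p
  simp only [Set.mem_preimage, Set.mem_inter_iff, hdep, Set.mem_setOf_eq, Function.update_self,
    Set.mem_prod]

/-! ### Flip -/

lemma measurable_flp : Measurable flp := by
  refine measurable_pi_iff.2 fun k => ?_
  exact (Measurable.of_discrete (f := not)).comp (measurable_pi_apply k)

lemma fair_map_not : fair.map not = fair := by
  refine Measure.ext_of_singleton fun b => ?_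
  rw [Measure.map_apply Measurable.of_discrete (measurableSet_singleton b)]
  have : not ⁻¹' {b} = {!b} := by ext c; cases b <;> cases c <;> simp
  rw [this, fair_singleton, fair_singleton]

lemma map_flp : P.map flp = P := by
  unfold P flp
  have := Measure.infinitePi_map_pi (μ := fun _ : ℕ => fair) (f := fun _ : ℕ => not)
    (fun _ => Measurable.of_discrete)
  rw [this]
  simp only [fair_map_not]

lemma P_flp_preimage {A : Set (ℕ → Bool)} (hA : MeasurableSet A) : P (flp ⁻¹' A) = P A := by
  rw [← Measure.map_apply measurable_flp hA, map_flp]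

/-! ### Concatenation -/

/-- The sequence `ω 0, …, ω (n-1), ω' 0, ω' 1, …`. -/
def cat (n : ℕ) (ω ω' : ℕ → Bool) : ℕ → Bool := fun k => if k < n then ω k else ω' (k - n)

lemma cat_lt {n : ℕ} (ω ω' : ℕ → Bool) {k : ℕ} (h : k < n) : cat n ω ω' k = ω k := if_pos h

lemma cat_add (n : ℕ) (ω ω' : ℕ → Bool) (k : ℕ) : cat n ω ω' (n + k) = ω' k := by
  unfold cat
  rw [if_neg (by omega)]
  congr 1
  omega

lemma measurable_cat (n : ℕ) :
    Measurable fun p : (ℕ → Bool) × (ℕ → Bool) => cat n p.1 p.2 := by
  refine measurable_pi_iff.2 fun k => ?_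
  unfold cat
  by_cases hk : k < n
  · simp only [hk, if_true]
    exact (measurable_pi_apply k).comp measurable_fst
  · simp only [hk, if_false]
    exact (measurable_pi_apply (k - n)).comp measurable_snd

lemma map_cat (n : ℕ) : (P.prod P).map (fun p => cat n p.1 p.2) = P := by
  classical
  conv_rhs => unfold P
  refine Measure.eq_infinitePi _ fun s t ht => ?_
  rw [Measure.map_apply (measurable_cat n) (MeasurableSet.pi s.countable_toSet fun i _ => ht i)]
  have hpre : (fun p : (ℕ → Bool) × (ℕ → Bool) => cat n p.1 p.2) ⁻¹' (Set.pi (s : Set ℕ) t)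
      = (Set.pi ((s.filter (· < n) : Finset ℕ) : Set ℕ) t) ×ˢ
        (Set.pi (((s.filter (n ≤ ·)).image (· - n) : Finset ℕ) : Set ℕ) (fun k => t (n + k))) := by
    ext p
    simp only [Set.mem_preimage, Set.mem_pi, Finset.mem_coe, Set.mem_prod, Finset.mem_filter,
      Finset.mem_image]
    constructor
    · intro h
      refine ⟨fun k hk => ?_, ?_⟩
      · have := h k hk.1
        rwa [cat_lt _ _ hk.2] at this
      · rintro _ ⟨k, ⟨hk1, hk2⟩, rfl⟩
        have := h k hk1
        have e : k = n + (k - n) := by omega
        rw [e, cat_add] at this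
        exact this
    · rintro ⟨h1, h2⟩ k hk
      by_cases hkn : k < n
      · rw [cat_lt _ _ hkn]
        exact h1 k ⟨hk, hkn⟩
      · have e : k = n + (k - n) := by omega
        have := h2 (k - n) ⟨k, ⟨hk, by omega⟩, rfl⟩
        rw [e, cat_add]
        exact this
  have hprod : P ((Set.pi ((s.filter (· < n) : Finset ℕ) : Set ℕ) t))
      = ∏ i ∈ s.filter (· < n), fair (t i) := Measure.infinitePi_pi _ (fun i _ => ht i)
  have hprod2 : P (Set.pi (((s.filter (n ≤ ·)).image (· - n) : Finset ℕ) : Set ℕ)
      (fun k => t (n + k))) = ∏ i ∈ s.filter (n ≤ ·), fair (t i) := by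
    have := Measure.infinitePi_pi (μ := fun _ : ℕ => fair)
      (s := (s.filter (n ≤ ·)).image (· - n)) (t := fun k => t (n + k)) (fun i _ => ht (n + i))
    unfold P
    rw [this, Finset.prod_image]
    · refine Finset.prod_congr rfl fun k hk => ?_
      rw [Finset.mem_filter] at hk
      have e : n + (k - n) = k := by omega
      rw [e]
    · intro a ha b hb hab
      simp only [Finset.coe_filter, Set.mem_setOf_eq] at ha hb
      simp only at hab
      omega
  rw [hpre, Measure.prod_prod, hprod, hprod2]
  rw [← Finset.prod_filter_mul_prod_filter_not s (· < n)]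
  congr 1
  refine Finset.prod_congr ?_ fun _ _ => rfl
  ext k
  simp

lemma measurable_cat_right (n : ℕ) (ω : ℕ → Bool) : Measurable (cat n ω) :=
  (measurable_cat n).comp measurable_prodMk_left

/-- Disintegration with respect to the first `n` coordinates. -/
lemma P_eq_lintegral_cat (n : ℕ) {E : Set (ℕ → Bool)} (hE : MeasurableSet E) :
    P E = ∫⁻ ω, P {ω' | cat n ω ω' ∈ E} ∂P := by
  conv_lhs => rw [← map_cat n]
  rw [Measure.map_apply (measurable_cat n) hE, Measure.prod_apply ((measurable_cat n) hE)]
  rfl

/-- If every continuation of every prefix of length `n` has probability zero, the event is null. -/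
lemma P_eq_zero_of_cat (n : ℕ) {E : Set (ℕ → Bool)} (hE : MeasurableSet E)
    (h : ∀ ω, P {ω' | cat n ω ω' ∈ E} = 0) : P E = 0 := by
  rw [P_eq_lintegral_cat n hE]
  simp [h]

/-! ### The density lemma -/

/-- The filtration of the first `n` coordinates. -/
def coinFiltration : Filtration ℕ (inferInstance : MeasurableSpace (ℕ → Bool)) where
  seq n := MeasurableSpace.comap (fun ω (k : Set.Iio n) => ω k) inferInstance
  mono' := by
    intro n m h
    simp only
    have e : (fun (ω : ℕ → Bool) (k : Set.Iio n) => ω k)
        = (fun (v : Set.Iio m → Bool) (k : Set.Iio n) =>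
            v ⟨k.1, lt_of_lt_of_le k.2 h⟩) ∘ (fun ω (k : Set.Iio m) => ω k) := rfl
    rw [e, ← MeasurableSpace.comap_comp]
    refine MeasurableSpace.comap_mono ?_
    exact Measurable.comap_le (measurable_pi_iff.2 fun k => measurable_pi_apply _)
  le' := by
    intro n
    exact Measurable.comap_le (measurable_pi_iff.2 fun k => measurable_pi_apply _)

lemma iSup_coinFiltration :
    (⨆ n, coinFiltration n) = (inferInstance : MeasurableSpace (ℕ → Bool)) := by
  refine le_antisymm (iSup_le fun n => coinFiltration.le n) ?_
  refine iSup_le fun k => ?_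
  refine le_trans ?_ (le_iSup (fun n => (coinFiltration n : MeasurableSpace (ℕ → Bool))) (k + 1))
  have e : (fun ω : ℕ → Bool => ω k)
      = (fun v : Set.Iio (k + 1) → Bool => v ⟨k, Nat.lt_succ_self k⟩) ∘
        (fun (ω : ℕ → Bool) (j : Set.Iio (k + 1)) => ω j) := rfl
  change MeasurableSpace.comap (fun ω : ℕ → Bool => ω k) _ ≤
    MeasurableSpace.comap (fun (ω : ℕ → Bool) (j : Set.Iio (k + 1)) => ω j) _
  rw [e, ← MeasurableSpace.comap_comp]
  exact MeasurableSpace.comap_mono (Measurable.comap_le (measurable_pi_apply _))

lemma mem_cat_of_past {n : ℕ} {s : Set (ℕ → Bool)} (hs : MeasurableSet[coinFiltration n] s)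
    (ω ω' : ℕ → Bool) : cat n ω ω' ∈ s ↔ ω ∈ s := by
  obtain ⟨t, _, rfl⟩ := hs
  simp only [Set.mem_preimage]
  have : (fun k : Set.Iio n => cat n ω ω' k) = fun k : Set.Iio n => ω k := by
    funext k
    exact cat_lt _ _ k.2
  rw [this]

/-- The conditional probability of `E` given the first `n` coordinates. -/
noncomputable def condP (E : Set (ℕ → Bool)) (n : ℕ) (ω : ℕ → Bool) : ℝ :=
  P.real {ω' | cat n ω ω' ∈ E}

lemma condP_congr (E : Set (ℕ → Bool)) (n : ℕ) {ω₁ ω₂ : ℕ → Bool} (h : ∀ k < n, ω₁ k = ω₂ k) :
    condP E n ω₁ = condP E n ω₂ := by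
  unfold condP
  have : ∀ ω', cat n ω₁ ω' = cat n ω₂ ω' := by
    intro ω'
    funext k
    unfold cat
    split_ifs with hk
    · exact h k hk
    · rfl
  simp only [this]

lemma measurable_condP {E : Set (ℕ → Bool)} (hE : MeasurableSet E) (n : ℕ) :
    Measurable (condP E n) := by
  unfold condP
  have : Measurable fun ω => P {ω' | cat n ω ω' ∈ E} :=
    measurable_measure_prodMk_left ((measurable_cat n) hE)
  exact this.ennreal_toReal

lemma measurable_condP_past {E : Set (ℕ → Bool)} (hE : MeasurableSet E) (n : ℕ) :
    Measurable[coinFiltration n] (condP E n) := by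
  have e : condP E n = (fun v : Set.Iio n → Bool =>
      condP E n (fun k => if h : k < n then v ⟨k, h⟩ else false)) ∘
        (fun (ω : ℕ → Bool) (k : Set.Iio n) => ω k) := by
    funext ω
    simp only [Function.comp_apply]
    refine condP_congr E n fun k hk => ?_
    simp [hk]
  rw [e]
  refine Measurable.comp ?_ (comap_measurable _)
  refine (measurable_condP hE n).comp (measurable_pi_iff.2 fun k => ?_)
  by_cases h : k < n
  · simp only [h, dite_true]
    exact measurable_pi_apply _
  · simp only [h, dite_false]
    exact measurable_const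

lemma condP_ae_eq {E : Set (ℕ → Bool)} (hE : MeasurableSet E) (n : ℕ) :
    condP E n =ᵐ[P] P[E.indicator (fun _ => (1 : ℝ)) | coinFiltration n] := by
  classical
  have hb : ∀ ω, ‖condP E n ω‖ ≤ 1 := fun ω => by
    unfold condP
    rw [Real.norm_of_nonneg measureReal_nonneg]
    exact measureReal_le_one
  refine ae_eq_condExp_of_forall_setIntegral_eq (coinFiltration.le n)
    ((integrable_const _).indicator hE) (fun s _ _ => ?_) (fun s hs _ => ?_) ?_
  · exact (Integrable.of_bound (measurable_condP hE n).aestronglyMeasurable 1
      (Eventually.of_forall hb)).integrableOn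
  · have hs' : MeasurableSet s := coinFiltration.le n s hs
    rw [← integral_indicator hs', ← integral_indicator hs']
    have hmeas : Measurable (s.indicator (E.indicator fun _ => (1 : ℝ))) :=
      (measurable_const.indicator hE).indicator hs'
    conv_rhs => rw [← map_cat n]
    rw [integral_map (measurable_cat n).aemeasurable hmeas.aestronglyMeasurable]
    rw [integral_prod]
    · refine integral_congr_ae (Eventually.of_forall fun ω => ?_)
      simp only
      have e : ∀ ω', s.indicator (E.indicator fun _ => (1 : ℝ)) (cat n ω ω')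
          = s.indicator (fun _ => (1 : ℝ)) ω *
            {ω' | cat n ω ω' ∈ E}.indicator (fun _ => (1 : ℝ)) ω' := by
        intro ω'
        simp only [Set.indicator_apply, mem_cat_of_past hs, Set.mem_setOf_eq]
        split_ifs <;> simp
      simp only [e]
      have hmE : MeasurableSet {ω' | cat n ω ω' ∈ E} := (measurable_cat_right n ω) hE
      rw [integral_const_mul, integral_indicator_const _ hmE]
      simp only [Set.indicator_apply, condP]
      split_ifs <;> simp
    · refine Integrable.of_bound (hmeas.comp (measurable_cat n)).aestronglyMeasurable 1 ?_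
      refine Eventually.of_forall fun p => ?_
      simp only [Function.comp_apply, Set.indicator_apply]
      split_ifs <;> simp
  · exact ((measurable_condP_past hE n).stronglyMeasurable).aestronglyMeasurable

/-- **Density lemma**: if almost every point of `E` has infinitely many prefixes of which the
continuations are in `E` with conditional probability at most `c < 1`, then `E` is null. -/
lemma P_eq_zero_of_frequently {E : Set (ℕ → Bool)} (hE : MeasurableSet E) {c : ℝ} (hc : c < 1)
    (h : ∀ᵐ ω ∂P, ω ∈ E → ∃ᶠ n in atTop, condP E n ω ≤ c) : P E = 0 := by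
  have hlevy : ∀ᵐ ω ∂P, Tendsto
      (fun n => (P[E.indicator (fun _ => (1 : ℝ)) | coinFiltration n]) ω) atTop
      (𝓝 (E.indicator (fun _ => (1 : ℝ)) ω)) := by
    refine Integrable.tendsto_ae_condExp ((integrable_const _).indicator hE) ?_
    rw [iSup_coinFiltration]
    exact (measurable_const.indicator hE).stronglyMeasurable
  have hall : ∀ᵐ ω ∂P, ∀ n, condP E n ω
      = (P[E.indicator (fun _ => (1 : ℝ)) | coinFiltration n]) ω :=
    ae_all_iff.2 fun n => condP_ae_eq hE n
  have hnot : ∀ᵐ ω ∂P, ω ∉ E := by
    filter_upwards [hlevy, hall, h] with ω h1 h2 h3 hω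
    rw [Set.indicator_of_mem hω] at h1
    have h4 : Tendsto (fun n => condP E n ω) atTop (𝓝 1) := by
      simpa only [h2] using h1
    have h5 : ∀ᶠ n in atTop, c < condP E n ω := h4.eventually (lt_mem_nhds hc)
    exact (h3 hω) (h5.mono fun n hn => not_le.2 hn)
  have := measure_eq_zero_iff_ae_notMem.2 hnot
  exact this

end Pool.Agent.Lib.MP_00be1d_pr
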