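import Mathlib

/-!
# Favorite one-side sites of a nearest-neighbour path on `ℤ`: definitions
-/

namespace Pool.Agent.Lib.MP_00be1d_pr

/-- The upcrossing local time `ξ_U(x, n) = #{1 ≤ k ≤ n : S_{k-1} = x, S_k = x + 1}`. -/
def upLocalTime (S : ℕ → ℤ) (x : ℤ) (n : ℕ) : ℕ :=
  ((Finset.Icc 1 n).filter fun k => S (k - 1) = x ∧ S k = x + 1).card

/-- The downcrossing local time `ξ_D(x, n) = #{1 ≤ k ≤ n : S_{k-1} = x, S_k = x - 1}`. -/
def downLocalTime (S : ℕ → ℤ) (x : ℤ) (n : ℕ) : ℕ :=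
  ((Finset.Icc 1 n).filter fun k => S (k - 1) = x ∧ S k = x - 1).card

/-- `ξ*(x, n) = max(ξ_U(x, n), ξ_D(x, n))`. -/
def oneSideLocalTime (S : ℕ → ℤ) (x : ℤ) (n : ℕ) : ℕ :=
  max (upLocalTime S x n) (downLocalTime S x n)

/-- The set `K*(n)` of the favorite one-side sites at time `n`: the sites `x` at which
`ξ*(x, n)` attains its maximum over all sites. -/
def favoriteSites (S : ℕ → ℤ) (n : ℕ) : Set ℤ :=
  {x | ∀ y, oneSideLocalTime S y n ≤ oneSideLocalTime S x n}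

end Pool.Agent.Lib.MP_00be1d_pr
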