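import Pool.Agent.Lib.MP_00be1d_pr.Coin

/-!
# Recurrence, and the leading side changes infinitely often
-/

open MeasureTheory Filter Topology Finset

namespace Pool.Agent.Lib.MP_00be1d_pr

/-! ### Dependence on prefixes and measurability -/

lemma S_congr {ω ω' : ℕ → Bool} {n : ℕ} (h : ∀ k < n, ω k = ω' k) : S ω n = S ω' n := by
  unfold S
  exact sum_congr rfl fun k hk => by rw [h k (mem_range.1 hk)]

lemma U_congr {ω ω' : ℕ → Bool} {n : ℕ} (h : ∀ k < n, ω k = ω' k) (x : ℤ) :
    U ω x n = U ω' x n := by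
  unfold U
  congr 1
  refine filter_congr fun k hk => ?_
  rw [mem_range] at hk
  rw [h k hk, S_congr fun j hj => h j (hj.trans hk)]

lemma D_congr {ω ω' : ℕ → Bool} {n : ℕ} (h : ∀ k < n, ω k = ω' k) (x : ℤ) :
    D ω x n = D ω' x n := by
  unfold D
  congr 1
  refine filter_congr fun k hk => ?_
  rw [mem_range] at hk
  rw [h k hk, S_congr fun j hj => h j (hj.trans hk)]

lemma Mp_congr {ω ω' : ℕ → Bool} {n : ℕ} (h : ∀ k < n, ω k = ω' k) : Mp ω n = Mp ω' n := by
  unfold Mp
  exact sup_congr rfl fun x _ => U_congr h x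

lemma flp_congr {ω ω' : ℕ → Bool} {n : ℕ} (h : ∀ k < n, ω k = ω' k) :
    ∀ k < n, flp ω k = flp ω' k := fun k hk => by simp only [flp, h k hk]

lemma Mm_congr {ω ω' : ℕ → Bool} {n : ℕ} (h : ∀ k < n, ω k = ω' k) : Mm ω n = Mm ω' n :=
  Mp_congr (flp_congr h)

lemma measurable_of_prefix {α : Type*} [MeasurableSpace α] (f : (ℕ → Bool) → α) (n : ℕ)
    (h : ∀ ω ω' : ℕ → Bool, (∀ k < n, ω k = ω' k) → f ω = f ω') : Measurable f := by
  have e : f = (fun v : Fin n → Bool => f (fun k => if h : k < n then v ⟨k, h⟩ else false)) ∘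
      (fun (ω : ℕ → Bool) (i : Fin n) => ω i) := by
    funext ω
    simp only [Function.comp_apply]
    refine h _ _ fun k hk => ?_
    simp [hk]
  rw [e]
  exact Measurable.of_discrete.comp (measurable_pi_iff.2 fun i => measurable_pi_apply _)

lemma measurable_S (n : ℕ) : Measurable fun ω => S ω n :=
  measurable_of_prefix _ n fun _ _ h => S_congr h

lemma measurable_U (x : ℤ) (n : ℕ) : Measurable fun ω => U ω x n :=
  measurable_of_prefix _ n fun _ _ h => U_congr h x

lemma measurable_D (x : ℤ) (n : ℕ) : Measurable fun ω => D ω x n :=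
  measurable_of_prefix _ n fun _ _ h => D_congr h x

lemma measurable_Mp (n : ℕ) : Measurable fun ω => Mp ω n :=
  measurable_of_prefix _ n fun _ _ h => Mp_congr h

lemma measurable_Mm (n : ℕ) : Measurable fun ω => Mm ω n :=
  measurable_of_prefix _ n fun _ _ h => Mm_congr h

/-! ### Concatenation and the walk -/

lemma S_cat_self (n : ℕ) (ω ω' : ℕ → Bool) : S (cat n ω ω') n = S ω n :=
  S_congr fun _ hk => cat_lt ω ω' hk

lemma S_cat (n k : ℕ) (ω ω' : ℕ → Bool) : S (cat n ω ω') (n + k) = S ω n + S ω' k := by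
  induction k with
  | zero => rw [Nat.add_zero, S_cat_self, S_zero, add_zero]
  | succ k ih => rw [← Nat.add_assoc, S_succ, ih, cat_add, S_succ, add_assoc]

lemma U_cat_self (n : ℕ) (ω ω' : ℕ → Bool) (x : ℤ) : U (cat n ω ω') x n = U ω x n :=
  U_congr (fun _ hk => cat_lt ω ω' hk) x

lemma D_cat_self (n : ℕ) (ω ω' : ℕ → Bool) (x : ℤ) : D (cat n ω ω') x n = D ω x n :=
  D_congr (fun _ hk => cat_lt ω ω' hk) x

lemma U_cat (n k : ℕ) (ω ω' : ℕ → Bool) (x : ℤ) :
    U (cat n ω ω') x (n + k) = U ω x n + U ω' (x - S ω n) k := by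
  induction k with
  | zero => rw [Nat.add_zero, U_cat_self, U_zero, add_zero]
  | succ k ih =>
    rw [← Nat.add_assoc, U_succ, ih, cat_add, U_succ, S_cat, add_assoc]
    congr 2
    refine if_congr ?_ rfl rfl
    constructor
    · rintro ⟨h1, h2⟩; exact ⟨by omega, h2⟩
    · rintro ⟨h1, h2⟩; exact ⟨by omega, h2⟩

lemma flp_cat (n : ℕ) (ω ω' : ℕ → Bool) : flp (cat n ω ω') = cat n (flp ω) (flp ω') := by
  funext k
  unfold flp cat
  split_ifs <;> rfl

lemma Mp_cat_le (n k : ℕ) {ω ω' : ℕ → Bool} (h : S ω n = 0) :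
    Mp (cat n ω ω') (n + k) ≤ n + Mp ω' k := by
  refine Mp_le _ fun x hx => ?_
  rw [U_cat, h, sub_zero]
  exact add_le_add (U_le ω x n) (U_le_Mp ω' hx k)

lemma le_Mp_cat (n k : ℕ) {ω ω' : ℕ → Bool} (h : S ω n = 0) :
    Mp ω' k ≤ Mp (cat n ω ω') (n + k) := by
  obtain ⟨x, hx, e⟩ := exists_eq_Mp ω' k
  refine le_trans ?_ (U_le_Mp _ hx (n + k))
  rw [U_cat, h, sub_zero, e]
  omega

lemma le_Mm_cat (n k : ℕ) {ω ω' : ℕ → Bool} (h : S ω n = 0) :
    Mm ω' k ≤ Mm (cat n ω ω') (n + k) := by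
  unfold Mm
  rw [flp_cat]
  exact le_Mp_cat n k (by rw [S_flp, h, neg_zero])

/-! ### Recurrence -/

/-- The walk started from `v` never visits `0`. -/
def noZero (v : ℤ) : Set (ℕ → Bool) := {ω | ∀ k, v + S ω k ≠ 0}

lemma measurableSet_noZero (v : ℤ) : MeasurableSet (noZero v) := by
  have : noZero v = ⋂ k, {ω | v + S ω k ≠ 0} := by ext ω; simp [noZero]
  rw [this]
  refine MeasurableSet.iInter fun k => ?_
  have h : MeasurableSet {z : ℤ | v + z ≠ 0} := MeasurableSet.of_discrete
  exact (measurable_S k) h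

lemma lintegral_coin0 (f : Bool → ENNReal) :
    ∫⁻ ω, f (ω 0) ∂P = f true * (1 / 2) + f false * (1 / 2) := by
  have h := (measurePreserving_eval_infinitePi (fun _ : ℕ => fair) 0).lintegral_comp
    (Measurable.of_discrete (f := f))
  change ∫⁻ ω, f (Function.eval 0 ω) ∂P = _
  unfold P
  rw [h, lintegral_fintype]
  simp [fair_singleton]

lemma P_noZero_step {v : ℤ} (hv : v ≠ 0) :
    P (noZero v) = P (noZero (v + 1)) * (1 / 2) + P (noZero (v - 1)) * (1 / 2) := by
  rw [P_eq_lintegral_cat 1 (measurableSet_noZero v)]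
  have e : ∀ ω : ℕ → Bool, {ω' | cat 1 ω ω' ∈ noZero v} = noZero (v + stp (ω 0)) := by
    intro ω
    ext ω'
    have hS1 : S ω 1 = stp (ω 0) := by rw [S_succ, S_zero, zero_add]
    simp only [noZero, Set.mem_ofPred_eq]
    constructor
    · intro h k
      have := h (1 + k)
      rw [S_cat, hS1] at this
      rwa [add_assoc]
    · intro h k
      rcases Nat.eq_zero_or_pos k with rfl | hk
      · rw [S_zero, add_zero]; exact hv
      · obtain ⟨j, rfl⟩ : ∃ j, k = 1 + j := ⟨k - 1, by omega⟩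
        rw [S_cat, hS1, ← add_assoc]
        exact h j
  simp only [e]
  rw [lintegral_coin0 fun b => P (noZero (v + stp b))]
  simp [stp, sub_eq_add_neg]

lemma P_noZero_nat (v : ℕ) : P (noZero (v : ℤ)) = 0 := by
  set h : ℕ → ℝ := fun v => P.real (noZero (v : ℤ)) with hh
  have h0 : h 0 = 0 := by
    have : noZero ((0 : ℕ) : ℤ) = ∅ := by
      ext ω
      simp only [noZero, Set.mem_ofPred_eq, Set.mem_empty_iff_false, iff_false]
      intro hc
      exact hc 0 (by simp [S_zero])
    simp only [hh, this, measureReal_empty]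
  have hstep : ∀ v, h (v + 1) = (h (v + 2) + h v) / 2 := by
    intro v
    have := P_noZero_step (v := ((v + 1 : ℕ) : ℤ)) (by push_cast; omega)
    have e1 : ((v + 1 : ℕ) : ℤ) + 1 = ((v + 2 : ℕ) : ℤ) := by push_cast; ring
    have e2 : ((v + 1 : ℕ) : ℤ) - 1 = ((v : ℕ) : ℤ) := by push_cast; ring
    rw [e1, e2] at this
    simp only [hh, Measure.real]
    rw [this, ENNReal.toReal_add, ENNReal.toReal_mul, ENNReal.toReal_mul]
    · simp; ring
    · exact ENNReal.mul_ne_top (measure_ne_top _ _) (by simp)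
    · exact ENNReal.mul_ne_top (measure_ne_top _ _) (by simp)
  have hlin : ∀ v, h v = v * h 1 ∧ h (v + 1) = (v + 1) * h 1 := by
    intro v
    induction v with
    | zero => simp [h0]
    | succ v ih =>
      refine ⟨by rw [ih.2]; push_cast; ring, ?_⟩
      have := hstep v
      have e : h (v + 1 + 1) = 2 * h (v + 1) - h v := by linarith
      rw [e, ih.1, ih.2]
      push_cast; ring
  have h1 : h 1 = 0 := by
    by_contra hne
    have hpos : 0 < h 1 := lt_of_le_of_ne measureReal_nonneg (Ne.symm hne)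
    obtain ⟨n, hn⟩ := exists_nat_gt (1 / h 1)
    have hle : h n ≤ 1 := measureReal_le_one
    rw [(hlin n).1] at hle
    rw [div_lt_iff₀ hpos] at hn
    linarith
  have hv : h v = 0 := by rw [(hlin v).1, h1, mul_zero]
  exact (measureReal_eq_zero_iff (measure_ne_top _ _)).1 hv

lemma P_noZero (v : ℤ) : P (noZero v) = 0 := by
  rcases le_or_gt 0 v with hv | hv
  · obtain ⟨n, rfl⟩ := Int.eq_ofNat_of_zero_le hv
    exact P_noZero_nat n
  · obtain ⟨n, hn⟩ := Int.eq_ofNat_of_zero_le (show 0 ≤ -v by omega)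
    have e : noZero v = flp ⁻¹' noZero (-v) := by
      ext ω
      simp only [noZero, Set.mem_ofPred_eq, Set.mem_preimage, S_flp]
      refine forall_congr' fun k => not_congr ?_
      omega
    rw [e, P_flp_preimage (measurableSet_noZero _), hn]
    exact P_noZero_nat n

/-- The walk returns to `0` infinitely often. -/
lemma ae_frequently_zero : ∀ᵐ ω ∂P, ∃ᶠ n in atTop, S ω n = 0 := by
  have h : ∀ N : ℕ, ∀ᵐ ω ∂P, ∃ n, N ≤ n ∧ S ω n = 0 := by
    intro N
    have hm : MeasurableSet {ω : ℕ → Bool | ∀ n, N ≤ n → S ω n ≠ 0} := by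
      have : {ω : ℕ → Bool | ∀ n, N ≤ n → S ω n ≠ 0}
          = ⋂ n, ⋂ (_ : N ≤ n), {ω | S ω n ≠ 0} := by ext ω; simp
      rw [this]
      refine MeasurableSet.iInter fun n => MeasurableSet.iInter fun _ => ?_
      have h : MeasurableSet {z : ℤ | z ≠ 0} := MeasurableSet.of_discrete
      exact (measurable_S n) h
    have h0 : P {ω : ℕ → Bool | ∀ n, N ≤ n → S ω n ≠ 0} = 0 := by
      refine P_eq_zero_of_cat N hm fun ω => ?_
      refine measure_mono_null ?_ (P_noZero (S ω N))
      intro ω' h k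
      have := h (N + k) (by omega)
      rwa [S_cat] at this
    rw [measure_eq_zero_iff_ae_notMem] at h0
    filter_upwards [h0] with ω hω
    by_contra hcon
    push Not at hcon
    exact hω hcon
  filter_upwards [ae_all_iff.2 h] with ω hω
  rw [frequently_atTop]
  exact fun N => hω N

/-! ### Oscillating continuations -/

/-- The first `2L` steps are down, up, down, up, … -/
def Alt (L : ℕ) : Set (ℕ → Bool) := {ω | ∀ i < L, ω (2 * i) = false ∧ ω (2 * i + 1) = true}

lemma measurableSet_Alt (L : ℕ) : MeasurableSet (Alt L) := by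
  have : Measurable fun ω : ℕ → Bool => (ω ∈ Alt L : Prop) := by
    refine measurable_of_prefix _ (2 * L) fun ω ω' h => ?_
    simp only [Alt, Set.mem_ofPred_eq, eq_iff_iff]
    refine forall_congr' fun i => forall_congr' fun hi => ?_
    rw [h (2 * i) (by omega), h (2 * i + 1) (by omega)]
  exact measurableSet_setOfPred.2 this

lemma P_Alt (L : ℕ) : P (Alt L) = (1 / 2) ^ (2 * L) := by
  have e : Alt L = Set.pi ((range (2 * L) : Finset ℕ) : Set ℕ)
      (fun k => if k % 2 = 0 then {false} else {true}) := by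
    ext ω
    simp only [Alt, Set.mem_ofPred_eq, Set.mem_pi, coe_range, Set.mem_Iio]
    constructor
    · intro h k hk
      rcases Nat.mod_two_eq_zero_or_one k with h2 | h2
      · rw [if_pos h2]
        have := (h (k / 2) (by omega)).1
        have e : 2 * (k / 2) = k := by omega
        rw [e] at this
        exact this
      · rw [if_neg (by omega)]
        have := (h (k / 2) (by omega)).2
        have e : 2 * (k / 2) + 1 = k := by omega
        rw [e] at this
        exact this
    · intro h i hi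
      have h1 := h (2 * i) (by omega)
      have h2 := h (2 * i + 1) (by omega)
      rw [if_pos (by omega)] at h1
      rw [if_neg (by omega)] at h2
      exact ⟨h1, h2⟩
  rw [e]
  unfold P
  rw [Measure.infinitePi_pi _ (fun i _ => by split_ifs <;> exact measurableSet_singleton _)]
  have : ∀ k ∈ range (2 * L), fair (if k % 2 = 0 then {false} else {true}) = 1 / 2 := by
    intro k _
    split_ifs <;> exact fair_singleton _
  rw [prod_congr rfl this, prod_const, card_range]

lemma P_Alt_real_pos (L : ℕ) : 0 < P.real (Alt L) := by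
  unfold Measure.real
  rw [P_Alt]
  simp

lemma osc_aux (ω ω' : ℕ → Bool) (n L : ℕ) (h : ω' ∈ Alt L) (i : ℕ) (hi : i ≤ L) :
    S (cat n ω ω') (n + 2 * i) = S ω n ∧
      U (cat n ω ω') (S ω n - 1) (n + 2 * i) = U ω (S ω n - 1) n + i ∧
      ∀ y, D (cat n ω ω') y (n + 2 * i) = D ω y n + if y = S ω n then i else 0 := by
  induction i with
  | zero =>
    refine ⟨by simpa using S_cat_self n ω ω', by simpa using U_cat_self n ω ω' _, fun y => ?_⟩
    simpa using D_cat_self n ω ω' y
  | succ i ih =>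
    obtain ⟨h1, h2, h3⟩ := ih (by omega)
    obtain ⟨a1, a2⟩ := h i (by omega)
    have c1 : cat n ω ω' (n + 2 * i) = false := by rw [cat_add]; exact a1
    have c2 : cat n ω ω' (n + 2 * i + 1) = true := by
      have : n + 2 * i + 1 = n + (2 * i + 1) := by ring
      rw [this, cat_add]; exact a2
    have e : n + 2 * (i + 1) = n + 2 * i + 1 + 1 := by ring
    have s1 : S (cat n ω ω') (n + 2 * i + 1) = S ω n - 1 := by
      rw [S_succ, h1, c1, stp_false]; ring
    rw [e]
    refine ⟨?_, ?_, fun y => ?_⟩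
    · rw [S_succ, s1, c2, stp_true]; ring
    · rw [U_succ, U_succ, h2, c1, c2, s1]
      simp
      ring
    · rw [D_succ, D_succ, h3, c1, c2, s1, h1]
      by_cases hy : y = S ω n
      · subst hy; simp; ring
      · have hy' : ¬ S ω n = y := fun e => hy e.symm
        simp [hy, hy']

/-- After an oscillating continuation of length `2L` from a positive site. -/
lemma osc (ω ω' : ℕ → Bool) (n L : ℕ) (h : ω' ∈ Alt L) (hpos : 1 ≤ S ω n) :
    U ω (S ω n - 1) n + L ≤ Mp (cat n ω ω') (n + 2 * L) ∧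
      Mm (cat n ω ω') (n + 2 * L) ≤ Mm ω n := by
  obtain ⟨_, h2, h3⟩ := osc_aux ω ω' n L h L le_rfl
  constructor
  · rw [← h2]
    exact U_le_Mp _ (by omega) _
  · obtain ⟨y, hy, e⟩ := exists_eq_Mm (cat n ω ω') (n + 2 * L)
    rw [← e, h3, if_neg (by omega), add_zero]
    exact D_le_Mm ω hy n

lemma condP_flp {E : Set (ℕ → Bool)} (hE : MeasurableSet E)
    (hinv : ∀ ω, flp ω ∈ E ↔ ω ∈ E) (n : ℕ) (ω : ℕ → Bool) :
    condP E n (flp ω) = condP E n ω := by
  unfold condP
  have hm : MeasurableSet {ω' | cat n ω ω' ∈ E} := (measurable_cat_right n ω) hE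
  have e : {ω' | cat n (flp ω) ω' ∈ E} = flp ⁻¹' {ω' | cat n ω ω' ∈ E} := by
    ext ω'
    simp only [Set.mem_ofPred_eq, Set.mem_preimage]
    rw [← hinv (cat n ω (flp ω')), flp_cat, flp_flp]
  unfold Measure.real
  rw [e, P_flp_preimage hm]

lemma condP_le_of_disjoint {E A : Set (ℕ → Bool)} (hA : MeasurableSet A) {n : ℕ} {ω : ℕ → Bool}
    (h : ∀ ω' ∈ A, cat n ω ω' ∉ E) : condP E n ω ≤ 1 - P.real A := by
  unfold condP
  rw [← probReal_compl_eq_one_sub hA]
  refine measureReal_mono ?_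
  intro ω' h1 h2
  exact h ω' h2 h1

/-! ### The maximum is unbounded -/

lemma ae_unbounded : ∀ᵐ ω ∂P, ∀ m : ℕ, ∃ n, m < max (Mp ω n) (Mm ω n) := by
  rw [ae_all_iff]
  intro m
  set E : Set (ℕ → Bool) := {ω | ∀ n, max (Mp ω n) (Mm ω n) ≤ m} with hEdef
  have hE : MeasurableSet E := by
    have : E = ⋂ n, {ω | max (Mp ω n) (Mm ω n) ≤ m} := by ext ω; simp [hEdef]
    rw [this]
    refine MeasurableSet.iInter fun n => ?_
    have h : MeasurableSet {k : ℕ | k ≤ m} := MeasurableSet.of_discrete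
    exact ((measurable_Mp n).max (measurable_Mm n)) h
  have hinv : ∀ ω, flp ω ∈ E ↔ ω ∈ E := by
    intro ω
    simp only [hEdef, Set.mem_ofPred_eq, Mp_flp, Mm_flp]
    refine forall_congr' fun n => ?_
    rw [max_comm]
  set c : ℝ := 1 - P.real (Alt (m + 1)) with hc
  have key : ∀ (n : ℕ) (ω : ℕ → Bool), S ω n ≤ 0 → condP E n ω ≤ c := by
    intro n ω hS
    refine condP_le_of_disjoint (measurableSet_Alt _) fun ω' hω' hcE => ?_
    obtain ⟨_, _, h3⟩ := osc_aux ω ω' n (m + 1) hω' (m + 1) le_rfl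
    have h4 := h3 (S ω n)
    rw [if_pos rfl] at h4
    have h5 := D_le_Mm (cat n ω ω') hS (n + 2 * (m + 1))
    have h6 := hcE (n + 2 * (m + 1))
    have h7 := le_max_right (Mp (cat n ω ω') (n + 2 * (m + 1))) (Mm (cat n ω ω') (n + 2 * (m + 1)))
    omega
  have hall : ∀ (n : ℕ) (ω : ℕ → Bool), condP E n ω ≤ c := by
    intro n ω
    rcases le_or_gt (S ω n) 0 with h | h
    · exact key n ω h
    · rw [← condP_flp hE hinv]
      exact key n (flp ω) (by rw [S_flp]; omega)
  have h0 : P E = 0 := by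
    refine P_eq_zero_of_frequently hE (c := c) ?_ (Eventually.of_forall fun ω _ => ?_)
    · have := P_Alt_real_pos (m + 1)
      rw [hc]; linarith
    · exact (Eventually.of_forall fun n => hall n ω).frequently
  rw [measure_eq_zero_iff_ae_notMem] at h0
  filter_upwards [h0] with ω hω
  simp only [hEdef, Set.mem_ofPred_eq] at hω
  push Not at hω
  exact hω

/-! ### Large gaps occur -/

/-- The gap between the two sides stays at most `R`. -/
def Gap (R : ℕ) : Set (ℕ → Bool) := {ω | ∀ n, Mp ω n ≤ Mm ω n + R ∧ Mm ω n ≤ Mp ω n + R}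

lemma measurableSet_Gap (R : ℕ) : MeasurableSet (Gap R) := by
  have : Gap R = ⋂ n, ({ω | Mp ω n ≤ Mm ω n + R} ∩ {ω | Mm ω n ≤ Mp ω n + R}) := by
    ext ω; simp [Gap]
  rw [this]
  refine MeasurableSet.iInter fun n => MeasurableSet.inter ?_ ?_
  · exact measurableSet_le (measurable_Mp n) ((measurable_Mm n).add_const R)
  · exact measurableSet_le (measurable_Mm n) ((measurable_Mp n).add_const R)

lemma P_Gap (R : ℕ) : P (Gap R) = 0 := by
  have hinv : ∀ ω, flp ω ∈ Gap R ↔ ω ∈ Gap R := by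
    intro ω
    simp only [Gap, Set.mem_ofPred_eq, Mp_flp, Mm_flp]
    exact forall_congr' fun n => and_comm
  set c : ℝ := 1 - P.real (Alt (R + 1)) with hc
  -- at a record of the positive side
  have key : ∀ (n : ℕ) (ω : ℕ → Bool), Mp ω n < Mp ω (n + 1) → Mm ω (n + 1) ≤ Mp ω (n + 1) →
      condP (Gap R) (n + 1) ω ≤ c := by
    intro n ω h1 h2
    refine condP_le_of_disjoint (measurableSet_Alt _) fun ω' hω' hcE => ?_
    obtain ⟨a1, a2, a3, a4⟩ := Mp_succ_lt ω h1
    have hS : S ω (n + 1) = S ω n + 1 := by rw [S_succ, a2, stp_true]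
    obtain ⟨b1, b2⟩ := osc ω ω' (n + 1) (R + 1) hω' (by omega)
    rw [hS] at b1
    have e : S ω n + 1 - 1 = S ω n := by ring
    rw [e, a4] at b1
    have := (hcE (n + 1 + 2 * (R + 1))).1
    omega
  refine P_eq_zero_of_frequently (measurableSet_Gap R) (c := c) ?_ ?_
  · have := P_Alt_real_pos (R + 1)
    rw [hc]; linarith
  · filter_upwards [ae_unbounded] with ω hω _
    -- records occur infinitely often
    rw [frequently_atTop]
    intro N
    set Mx : ℕ → ℕ := fun n => max (Mp ω n) (Mm ω n) with hMx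
    obtain ⟨n, hNn, hn⟩ : ∃ n, N ≤ n ∧ Mx n < Mx (n + 1) := by
      by_contra hcon
      push Not at hcon
      have hconst : ∀ k, Mx (N + k) ≤ Mx N := by
        intro k
        induction k with
        | zero => exact le_rfl
        | succ k ih => exact (hcon (N + k) (by omega)).trans ih
      obtain ⟨n, hn⟩ := hω (Mx N)
      have hmono : Monotone Mx := fun a b hab => max_le_max (Mp_mono ω hab) (Mm_mono ω hab)
      have h1 := hconst n
      have h2 : Mx n ≤ Mx (N + n) := hmono (by omega)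
      simp only [hMx] at h1 h2 hn
      omega
    refine ⟨n + 1, by omega, ?_⟩
    simp only [hMx] at hn
    rcases le_total (Mm ω (n + 1)) (Mp ω (n + 1)) with h | h
    · refine key n ω ?_ h
      rw [max_eq_left h] at hn
      exact lt_of_le_of_lt (le_max_left _ _) hn
    · rw [← condP_flp (measurableSet_Gap R) hinv]
      refine key n (flp ω) ?_ ?_
      · rw [Mp_flp, Mp_flp]
        rw [max_eq_right h] at hn
        exact lt_of_le_of_lt (le_max_right _ _) hn
      · rw [Mm_flp, Mp_flp]; exact h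

/-- The negative side leads by more than `R` at some time. -/
def Lead (R : ℕ) : Set (ℕ → Bool) := {ω | ∃ k, Mp ω k + R < Mm ω k}

lemma measurableSet_Lead (R : ℕ) : MeasurableSet (Lead R) := by
  have : Lead R = ⋃ n, {ω | Mp ω n + R < Mm ω n} := by ext ω; simp [Lead]
  rw [this]
  refine MeasurableSet.iUnion fun n => ?_
  exact measurableSet_lt ((measurable_Mp n).add_const R) (measurable_Mm n)

lemma half_le_P_Lead (R : ℕ) : 1 / 2 ≤ P.real (Lead R) := by
  have h1 : (Gap R)ᶜ ⊆ Lead R ∪ flp ⁻¹' Lead R := by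
    intro ω hω
    simp only [Gap, Set.mem_compl_iff, Set.mem_ofPred_eq] at hω
    push Not at hω
    obtain ⟨n, hn⟩ := hω
    by_cases h : Mp ω n ≤ Mm ω n + R
    · left; exact ⟨n, hn h⟩
    · right
      refine ⟨n, ?_⟩
      rw [Mp_flp, Mm_flp]; omega
  have h2 : P.real (Gap R)ᶜ = 1 := by
    rw [probReal_compl_eq_one_sub (measurableSet_Gap R)]
    simp [Measure.real, P_Gap]
  have h3 : P.real (flp ⁻¹' Lead R) = P.real (Lead R) := by
    unfold Measure.real
    rw [P_flp_preimage (measurableSet_Lead R)]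
  have h4 := measureReal_mono (μ := P) h1
  have h5 := measureReal_union_le (μ := P) (Lead R) (flp ⁻¹' Lead R)
  linarith

/-- The positive side leads (weakly) from time `N` on. -/
def LeadFrom (N : ℕ) : Set (ℕ → Bool) := {ω | ∀ n, N ≤ n → Mm ω n ≤ Mp ω n}

lemma measurableSet_LeadFrom (N : ℕ) : MeasurableSet (LeadFrom N) := by
  have : LeadFrom N = ⋂ n, ⋂ (_ : N ≤ n), {ω | Mm ω n ≤ Mp ω n} := by ext ω; simp [LeadFrom]
  rw [this]
  refine MeasurableSet.iInter fun n => MeasurableSet.iInter fun _ => ?_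
  exact measurableSet_le (measurable_Mm n) (measurable_Mp n)

lemma P_LeadFrom (N : ℕ) : P (LeadFrom N) = 0 := by
  refine P_eq_zero_of_frequently (measurableSet_LeadFrom N) (c := 1 / 2) (by norm_num) ?_
  filter_upwards [ae_frequently_zero] with ω hω _
  rw [frequently_atTop] at hω ⊢
  intro K
  obtain ⟨n, hn, hS⟩ := hω (max K N)
  refine ⟨n, le_trans (le_max_left _ _) hn, ?_⟩
  have hNn : N ≤ n := le_trans (le_max_right _ _) hn
  have h1 : condP (LeadFrom N) n ω ≤ 1 - P.real (Lead n) := by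
    refine condP_le_of_disjoint (measurableSet_Lead n) fun ω' hω' hc => ?_
    obtain ⟨k, hk⟩ := hω'
    have h2 := hc (n + k) (by omega)
    have h3 := Mp_cat_le n k (ω' := ω') hS
    have h4 := le_Mm_cat n k (ω' := ω') hS
    omega
  have h2 := half_le_P_Lead n
  linarith

/-- Almost surely each side leads strictly at arbitrarily late times. -/
lemma ae_sign_changes :
    ∀ᵐ ω ∂P, ∀ N : ℕ, (∃ n, N ≤ n ∧ Mp ω n < Mm ω n) ∧ (∃ n, N ≤ n ∧ Mm ω n < Mp ω n) := by
  rw [ae_all_iff]
  intro N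
  have h1 := P_LeadFrom N
  have h2 : P (flp ⁻¹' LeadFrom N) = 0 := by
    rw [P_flp_preimage (measurableSet_LeadFrom N)]; exact h1
  rw [measure_eq_zero_iff_ae_notMem] at h1 h2
  filter_upwards [h1, h2] with ω a1 a2
  constructor
  · simp only [LeadFrom, Set.mem_ofPred_eq] at a1
    push Not at a1
    exact a1
  · simp only [LeadFrom, Set.mem_preimage, Set.mem_ofPred_eq, Mp_flp, Mm_flp] at a2
    push Not at a2
    exact a2

end Pool.Agent.Lib.MP_00be1d_pr
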