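import Pool.Agent.Lib.MP_00be1d_pr.Binom

/-!
# The walk driven by stacks of coins, and the bad ties
-/

open MeasureTheory Filter Topology Finset

namespace Pool.Agent.Lib.MP_00be1d_pr

/-- The law of independent stacks of coins, one at each site. -/
noncomputable def Q : Measure (ℤ → ℕ → Bool) := Measure.infinitePi fun _ : ℤ => P

instance : IsProbabilityMeasure Q := by unfold Q; infer_instance

/-- State of the walk driven by the stacks: position and numbers of used coins. -/
def st (η : ℤ → ℕ → Bool) : ℕ → ℤ × (ℤ → ℕ)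
  | 0 => (0, fun _ => 0)
  | n + 1 => ((st η n).1 + stp (η (st η n).1 ((st η n).2 (st η n).1)),
      Function.update (st η n).2 (st η n).1 ((st η n).2 (st η n).1 + 1))

/-- The steps of the walk driven by the stacks. -/
def psi (η : ℤ → ℕ → Bool) (n : ℕ) : Bool := η (st η n).1 ((st η n).2 (st η n).1)

lemma st_succ_fst (η : ℤ → ℕ → Bool) (n : ℕ) :
    (st η (n + 1)).1 = (st η n).1 + stp (psi η n) := rfl

lemma st_succ_snd (η : ℤ → ℕ → Bool) (n : ℕ) :
    (st η (n + 1)).2 = Function.update (st η n).2 (st η n).1 ((st η n).2 (st η n).1 + 1) := rfl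

lemma S_psi (η : ℤ → ℕ → Bool) (n : ℕ) : S (psi η) n = (st η n).1 := by
  induction n with
  | zero => rw [S_zero]; rfl
  | succ n ih => rw [S_succ, ih, st_succ_fst]

lemma used_succ (η : ℤ → ℕ → Bool) (n : ℕ) (x : ℤ) :
    (st η (n + 1)).2 x = (st η n).2 x + if (st η n).1 = x then 1 else 0 := by
  rw [st_succ_snd]
  by_cases h : (st η n).1 = x
  · subst h; simp
  · rw [Function.update_of_ne (fun e => h e.symm), if_neg h]; rfl

lemma used_mono (η : ℤ → ℕ → Bool) (x : ℤ) : Monotone fun n => (st η n).2 x :=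
  monotone_nat_of_le_succ fun n => by rw [used_succ]; omega

/-- The used coins at `x` are the steps from `x`. -/
lemma cb_used (η : ℤ → ℕ → Bool) (n : ℕ) (x : ℤ) :
    cb true (η x) ((st η n).2 x) = U (psi η) x n ∧
      cb false (η x) ((st η n).2 x) = D (psi η) x n := by
  induction n with
  | zero => exact ⟨by rw [U_zero]; exact cb_zero _ _, by rw [D_zero]; exact cb_zero _ _⟩
  | succ n ih =>
    rw [used_succ, U_succ, D_succ, S_psi]
    by_cases h : (st η n).1 = x
    · rw [if_pos h, cb_succ, cb_succ, ih.1, ih.2]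
      have e : psi η n = η x ((st η n).2 x) := by unfold psi; rw [h]
      rw [e]
      simp [h]
    · simp [h, ih.1, ih.2]

lemma cb_true_add_false (β : ℕ → Bool) (n : ℕ) : cb true β n + cb false β n = n := by
  induction n with
  | zero => simp [cb_zero]
  | succ n ih =>
    rw [cb_succ, cb_succ]
    cases h : β n <;> simp <;> omega

lemma used_eq (η : ℤ → ℕ → Bool) (n : ℕ) (x : ℤ) :
    (st η n).2 x = U (psi η) x n + D (psi η) x n := by
  have := cb_true_add_false (η x) ((st η n).2 x)
  rw [(cb_used η n x).1, (cb_used η n x).2] at this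
  exact this.symm

/-- Direction of the last exit from `x`. -/
lemma last_exit (η : ℤ → ℕ → Bool) (n : ℕ) (x : ℤ) (hpos : 0 < (st η n).2 x) :
    ((st η n).1 < x → η x ((st η n).2 x - 1) = false) ∧
      (x < (st η n).1 → η x ((st η n).2 x - 1) = true) := by
  induction n with
  | zero => exact absurd hpos (by simp [st])
  | succ n ih =>
    rw [used_succ] at hpos ⊢
    rw [st_succ_fst]
    by_cases h : (st η n).1 = x
    · have e : psi η n = η x ((st η n).2 x) := by unfold psi; rw [h]
      rw [if_pos h, Nat.add_sub_cancel, h, e]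
      constructor
      · intro hlt
        cases hc : η x ((st η n).2 x)
        · rfl
        · rw [hc, stp_true] at hlt; omega
      · intro hlt
        cases hc : η x ((st η n).2 x)
        · rw [hc, stp_false] at hlt; omega
        · rfl
    · rw [if_neg h, Nat.add_zero] at hpos ⊢
      obtain ⟨h1, h2⟩ := ih hpos
      have hs : stp (psi η n) = 1 ∨ stp (psi η n) = -1 := by
        cases psi η n
        · right; rfl
        · left; rfl
      constructor
      · intro hlt
        exact h1 (by rcases hs with hs | hs <;> omega)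
      · intro hlt
        exact h2 (by rcases hs with hs | hs <;> omega)

/-! ### The law of the walk driven by the stacks -/

/-- Changing the coin number `l` of the stack at `x`. -/
def chg (η : ℤ → ℕ → Bool) (x : ℤ) (l : ℕ) (b : Bool) : ℤ → ℕ → Bool :=
  Function.update η x (Function.update (η x) l b)

lemma chg_apply_of_ne (η : ℤ → ℕ → Bool) {x y : ℤ} {l k : ℕ} (b : Bool) (h : ¬ (y = x ∧ k = l)) :
    chg η x l b y k = η y k := by
  unfold chg
  by_cases hy : y = x
  · subst hy
    have hk : k ≠ l := fun e => h ⟨rfl, e⟩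
    rw [Function.update_self, Function.update_of_ne hk]
  · rw [Function.update_of_ne hy]

lemma chg_chg (η : ℤ → ℕ → Bool) (x : ℤ) (l : ℕ) (b c : Bool) :
    chg (chg η x l b) x l c = chg η x l c := by
  unfold chg
  simp

lemma chg_self (η : ℤ → ℕ → Bool) (x : ℤ) (l : ℕ) : chg η x l (η x l) = η := by
  unfold chg
  simp

lemma st_chg (η : ℤ → ℕ → Bool) (x : ℤ) (l : ℕ) (b : Bool) (n : ℕ) (h : (st η n).2 x ≤ l) :
    st (chg η x l b) n = st η n ∧ ∀ k < n, psi (chg η x l b) k = psi η k := by
  induction n with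
  | zero => exact ⟨rfl, fun k hk => absurd hk (by omega)⟩
  | succ n ih =>
    have hle : (st η n).2 x ≤ l := (used_mono η x (Nat.le_succ n)).trans h
    obtain ⟨h1, h2⟩ := ih hle
    have h3 : psi (chg η x l b) n = psi η n := by
      unfold psi
      rw [h1]
      refine chg_apply_of_ne η b ?_
      rintro ⟨e1, e2⟩
      rw [used_succ, if_pos e1] at h
      rw [e1] at e2
      omega
    refine ⟨?_, fun k hk => ?_⟩
    · refine Prod.ext ?_ ?_
      · rw [st_succ_fst, st_succ_fst, h1, h3]
      · rw [st_succ_snd, st_succ_snd, h1]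
    · rcases Nat.lt_succ_iff_lt_or_eq.1 hk with hk | rfl
      · exact h2 k hk
      · exact h3

lemma Q_row {A : Set (ℤ → ℕ → Bool)} (hA : MeasurableSet A) (x : ℤ)
    (hdep : ∀ η β, Function.update η x β ∈ A ↔ η ∈ A) {B : Set (ℕ → Bool)}
    (hB : MeasurableSet B) : Q (A ∩ {η | η x ∈ B}) = Q A * P B :=
  measure_inter_of_update P x hA hdep hB

lemma Q_coin {A : Set (ℤ → ℕ → Bool)} (hA : MeasurableSet A) (x : ℤ) (l : ℕ)
    (hdep : ∀ η b, chg η x l b ∈ A ↔ η ∈ A) (B : Set Bool) :
    Q (A ∩ {η | η x l ∈ B}) = Q A * fair B := by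
  have hB : MeasurableSet B := MeasurableSet.of_discrete
  have hm : MeasurableSet (A ∩ {η : ℤ → ℕ → Bool | η x l ∈ B}) := by
    refine hA.inter ?_
    have : Measurable fun η : ℤ → ℕ → Bool => η x l :=
      (measurable_pi_apply l).comp (measurable_pi_apply x)
    exact this hB
  have hmap : (Q.prod P).map (fun p => Function.update p.1 x p.2) = Q :=
    map_update_infinitePi P x
  have hmu : Measurable fun p : (ℤ → ℕ → Bool) × (ℕ → Bool) => Function.update p.1 x p.2 :=
    measurable_update_pair' x
  have e1 : ∀ E : Set (ℤ → ℕ → Bool), MeasurableSet E →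
      Q E = ∫⁻ η, P {β | Function.update η x β ∈ E} ∂Q := by
    intro E hE
    conv_lhs => rw [← hmap]
    rw [Measure.map_apply hmu hE, Measure.prod_apply (hmu hE)]
    rfl
  have hmeas : Measurable fun η : ℤ → ℕ → Bool => P {β | Function.update η x β ∈ A} :=
    measurable_measure_prodMk_left (hmu hA)
  rw [e1 _ hm, e1 _ hA, ← lintegral_mul_const _ hmeas]
  refine lintegral_congr fun η => ?_
  have hAη : MeasurableSet {β : ℕ → Bool | Function.update η x β ∈ A} :=
    (hmu.comp measurable_prodMk_left) hA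
  have h := measure_inter_of_update fair l hAη (fun β b => ?_) hB
  · have e : {β : ℕ → Bool | Function.update η x β ∈ A ∩ {η | η x l ∈ B}}
        = {β | Function.update η x β ∈ A} ∩ {β | β l ∈ B} := by
      ext β
      simp
    rw [e]
    exact h
  · simp only [Set.mem_ofPred_eq]
    have := hdep (Function.update η x β) b
    unfold chg at this
    rw [Function.update_self, Function.update_idem] at this
    exact this

lemma measurable_st (n : ℕ) (x : ℤ) :
    Measurable (fun η : ℤ → ℕ → Bool => (st η n).1) ∧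
      Measurable (fun η : ℤ → ℕ → Bool => (st η n).2 x) ∧
      Measurable (fun η : ℤ → ℕ → Bool => psi η n) := by
  have hcoin : ∀ (f : (ℤ → ℕ → Bool) → ℤ) (g : (ℤ → ℕ → Bool) → ℕ), Measurable f → Measurable g →
      Measurable fun η : ℤ → ℕ → Bool => η (f η) (g η) := by
    intro f g hf hg
    refine measurable_to_countable' fun b => ?_
    have : (fun η : ℤ → ℕ → Bool => η (f η) (g η)) ⁻¹' {b}
        = ⋃ (y : ℤ), ⋃ (k : ℕ), ({η | f η = y} ∩ {η | g η = k}) ∩ {η | η y k = b} := by
      ext η
      simp only [Set.mem_preimage, Set.mem_singleton_iff, Set.mem_iUnion, Set.mem_inter_iff,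
        Set.mem_ofPred_eq]
      constructor
      · intro h; exact ⟨f η, g η, ⟨rfl, rfl⟩, h⟩
      · rintro ⟨y, k, ⟨rfl, rfl⟩, h⟩; exact h
    rw [this]
    refine MeasurableSet.iUnion fun y => MeasurableSet.iUnion fun k => ?_
    refine MeasurableSet.inter (MeasurableSet.inter ?_ ?_) ?_
    · exact hf (measurableSet_singleton y)
    · exact hg (measurableSet_singleton k)
    · have hyk : Measurable fun η : ℤ → ℕ → Bool => η y k :=
        (measurable_pi_apply k).comp (measurable_pi_apply y)
      exact hyk (measurableSet_singleton b)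
  have hused : ∀ (f : (ℤ → ℕ → Bool) → ℤ) (u : ℤ → (ℤ → ℕ → Bool) → ℕ), Measurable f →
      (∀ y, Measurable (u y)) → Measurable fun η : ℤ → ℕ → Bool => u (f η) η := by
    intro f u hf hu
    refine measurable_to_countable' fun k => ?_
    have : (fun η : ℤ → ℕ → Bool => u (f η) η) ⁻¹' {k}
        = ⋃ (y : ℤ), ({η | f η = y} ∩ {η | u y η = k}) := by
      ext η
      simp only [Set.mem_preimage, Set.mem_singleton_iff, Set.mem_iUnion, Set.mem_inter_iff,
        Set.mem_ofPred_eq]
      constructor
      · intro h; exact ⟨f η, rfl, h⟩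
      · rintro ⟨y, rfl, h⟩; exact h
    rw [this]
    refine MeasurableSet.iUnion fun y => MeasurableSet.inter ?_ ?_
    · exact hf (measurableSet_singleton y)
    · exact hu y (measurableSet_singleton k)
  have main : ∀ n, Measurable (fun η : ℤ → ℕ → Bool => (st η n).1) ∧
      (∀ x, Measurable fun η : ℤ → ℕ → Bool => (st η n).2 x) ∧
      Measurable (fun η : ℤ → ℕ → Bool => psi η n) := by
    intro n
    induction n with
    | zero =>
      have h1 : Measurable (fun η : ℤ → ℕ → Bool => (st η 0).1) := measurable_const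
      have h2 : ∀ x, Measurable fun η : ℤ → ℕ → Bool => (st η 0).2 x := fun x => measurable_const
      exact ⟨h1, h2, hcoin _ _ h1 (hused _ (fun y η => (st η 0).2 y) h1 h2)⟩
    | succ n ih =>
      obtain ⟨i1, i2, i3⟩ := ih
      have h1 : Measurable (fun η : ℤ → ℕ → Bool => (st η (n + 1)).1) := by
        simp only [st_succ_fst]
        exact i1.add ((Measurable.of_discrete (f := stp)).comp i3)
      have h2 : ∀ x, Measurable fun η : ℤ → ℕ → Bool => (st η (n + 1)).2 x := by
        intro x
        simp only [used_succ]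
        exact (i2 x).add (Measurable.ite (i1 (measurableSet_singleton x)) measurable_const
          measurable_const)
      exact ⟨h1, h2, hcoin _ _ h1 (hused _ (fun y η => (st η (n + 1)).2 y) h1 h2)⟩
  exact ⟨(main n).1, (main n).2.1 x, (main n).2.2⟩

lemma measurable_psi : Measurable psi :=
  measurable_pi_iff.2 fun n => (measurable_st n 0).2.2

/-- Law of the first steps. -/
lemma Q_prefix (n : ℕ) (t : ℕ → Set Bool) :
    Q {η | ∀ k < n, psi η k ∈ t k} = ∏ k ∈ range n, fair (t k) := by
  induction n with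
  | zero => simp
  | succ n ih =>
    set A : ℤ × ℕ → Set (ℤ → ℕ → Bool) := fun p =>
      {η | (∀ k < n, psi η k ∈ t k) ∧ (st η n).1 = p.1 ∧ (st η n).2 p.1 = p.2} with hA
    have hAm : ∀ p, MeasurableSet (A p) := by
      intro p
      have e : A p = (⋂ k, ⋂ (_ : k < n), {η | psi η k ∈ t k}) ∩
          ({η | (st η n).1 = p.1} ∩ {η | (st η n).2 p.1 = p.2}) := by
        ext η; simp [hA]
      rw [e]
      refine MeasurableSet.inter (MeasurableSet.iInter fun k => MeasurableSet.iInter fun _ => ?_)
        (MeasurableSet.inter ?_ ?_)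
      · exact (measurable_st k 0).2.2 (MeasurableSet.of_discrete (s := t k))
      · exact (measurable_st n 0).1 (measurableSet_singleton p.1)
      · exact (measurable_st n p.1).2.1 (measurableSet_singleton p.2)
    have hdep : ∀ p : ℤ × ℕ, ∀ η b, chg η p.1 p.2 b ∈ A p ↔ η ∈ A p := by
      have one : ∀ p : ℤ × ℕ, ∀ η b, η ∈ A p → chg η p.1 p.2 b ∈ A p := by
        rintro p η b ⟨h1, h2, h3⟩
        obtain ⟨e1, e2⟩ := st_chg η p.1 p.2 b n h3.le
        exact ⟨fun k hk => by rw [e2 k hk]; exact h1 k hk, by rw [e1]; exact h2,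
          by rw [e1]; exact h3⟩
      intro p η b
      refine ⟨fun h => ?_, one p η b⟩
      have := one p (chg η p.1 p.2 b) (η p.1 p.2) h
      rwa [chg_chg, chg_self] at this
    have hdisj : Pairwise (Function.onFun Disjoint A) := by
      intro p q hpq
      simp only [Function.onFun]
      rw [Set.disjoint_left]
      rintro η ⟨_, h1, h2⟩ ⟨_, h3, h4⟩
      apply hpq
      have e1 : p.1 = q.1 := by rw [← h1, ← h3]
      refine Prod.ext e1 ?_
      rw [← h2, ← h4, e1]
    have hU : {η : ℤ → ℕ → Bool | ∀ k < n, psi η k ∈ t k} = ⋃ p, A p := by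
      ext η
      simp only [hA, Set.mem_ofPred_eq, Set.mem_iUnion]
      constructor
      · intro h; exact ⟨((st η n).1, (st η n).2 (st η n).1), h, rfl, rfl⟩
      · rintro ⟨p, h, _⟩; exact h
    have hU2 : {η : ℤ → ℕ → Bool | ∀ k < n + 1, psi η k ∈ t k}
        = ⋃ p : ℤ × ℕ, (A p ∩ {η | η p.1 p.2 ∈ t n}) := by
      ext η
      simp only [hA, Set.mem_ofPred_eq, Set.mem_iUnion, Set.mem_inter_iff]
      constructor
      · intro h
        exact ⟨((st η n).1, (st η n).2 (st η n).1), ⟨fun k hk => h k (by omega), rfl, rfl⟩,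
          h n (by omega)⟩
      · rintro ⟨p, ⟨h1, h2, h3⟩, h4⟩ k hk
        rcases Nat.lt_succ_iff_lt_or_eq.1 hk with hk | rfl
        · exact h1 k hk
        · unfold psi
          rw [h2, h3]
          exact h4
    rw [hU2, measure_iUnion]
    · have e : ∀ p : ℤ × ℕ, Q (A p ∩ {η | η p.1 p.2 ∈ t n}) = Q (A p) * fair (t n) := fun p =>
        Q_coin (hAm p) p.1 p.2 (hdep p) (t n)
      simp only [e]
      rw [ENNReal.tsum_mul_right, ← measure_iUnion hdisj hAm, ← hU, ih, prod_range_succ]
    · intro p q hpq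
      exact (hdisj hpq).mono Set.inter_subset_left Set.inter_subset_left
    · intro p
      refine (hAm p).inter ?_
      exact ((measurable_pi_apply p.2).comp (measurable_pi_apply p.1))
        (MeasurableSet.of_discrete (s := t n))

/-- The walk driven by the stacks is the simple random walk. -/
lemma map_psi : Q.map psi = P := by
  classical
  conv_rhs => unfold P
  refine Measure.eq_infinitePi _ fun s t ht => ?_
  rw [Measure.map_apply measurable_psi (MeasurableSet.pi s.countable_toSet fun i _ => ht i)]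
  set n := s.sup id + 1 with hn
  have hlt : ∀ i ∈ s, i < n := fun i hi => Nat.lt_succ_of_le (le_sup (f := id) hi)
  set t' : ℕ → Set Bool := fun k => if k ∈ s then t k else Set.univ with ht'
  have e : psi ⁻¹' (Set.pi (s : Set ℕ) t) = {η | ∀ k < n, psi η k ∈ t' k} := by
    ext η
    simp only [Set.mem_preimage, Set.mem_pi, mem_coe, Set.mem_ofPred_eq, ht']
    constructor
    · intro h k _
      split_ifs with hk
      · exact h k hk
      · trivial
    · intro h k hk
      have := h k (hlt k hk)
      rwa [if_pos hk] at this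
  rw [e, Q_prefix]
  have hsub : s ⊆ range n := fun i hi => mem_range.2 (hlt i hi)
  rw [← prod_subset hsub]
  · refine prod_congr rfl fun i hi => ?_
    simp only [ht', if_pos hi]
  · intro i _ hi
    simp only [ht', if_neg hi]
    exact measure_univ

/-! ### Bad ties in terms of the stacks -/

/-- Two-sided chains of crossing numbers: `F m h c c'` says that the first `2m` coins at `0` contain
exactly `m` up coins, and that the numbers of outward crossings of the edges at distance `h` from
`0` read off the stacks are `c` and `c'`, all the numbers at smaller distance being at most `m`. -/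
def F (m : ℕ) : ℕ → ℕ → ℕ → Set (ℤ → ℕ → Bool)
  | 0, c, c' => {η | c = m ∧ c' = m ∧ cb true (η 0) (2 * m) = m}
  | h + 1, c, c' => ⋃ a ∈ range (m + 1), ⋃ a' ∈ range (m + 1),
      (F m h a a' ∩ {η | η ((h : ℤ) + 1) ∈ {β | Nb false β a c}}) ∩
        {η | η (-((h : ℤ) + 1)) ∈ {β | Nb true β a' c'}}

lemma F_dep (m h c c' : ℕ) (x : ℤ) (hx : (h : ℤ) < |x|) (η : ℤ → ℕ → Bool) (β : ℕ → Bool) :
    Function.update η x β ∈ F m h c c' ↔ η ∈ F m h c c' := by
  induction h generalizing c c' with
  | zero =>
    have hx0 : x ≠ 0 := by rintro rfl; simp at hx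
    simp only [F, Set.mem_ofPred_eq]
    rw [Function.update_of_ne hx0.symm]
  | succ h ih =>
    have hh : (h : ℤ) < |x| := by push_cast at hx; omega
    have e1 : ((h : ℤ) + 1) ≠ x := by
      rintro rfl
      rw [abs_of_nonneg (by positivity)] at hx
      push_cast at hx; omega
    have e2 : (-((h : ℤ) + 1)) ≠ x := by
      rintro rfl
      rw [abs_neg, abs_of_nonneg (by positivity)] at hx
      push_cast at hx; omega
    simp only [F, Set.mem_iUnion, Set.mem_inter_iff, Set.mem_ofPred_eq, ih _ _ hh,
      Function.update_of_ne e1, Function.update_of_ne e2]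

lemma measurableSet_F (m h c c' : ℕ) : MeasurableSet (F m h c c') := by
  induction h generalizing c c' with
  | zero =>
    by_cases hc : c = m ∧ c' = m
    · have e : F m 0 c c' = (fun η : ℤ → ℕ → Bool => η 0) ⁻¹' {β | cb true β (2 * m) = m} := by
        ext η; simp [F, hc]
      rw [e]
      exact (measurable_pi_apply 0) (measurableSet_cb true (2 * m) m)
    · have e : F m 0 c c' = ∅ := by
        ext η
        simp only [F, Set.mem_ofPred_eq, Set.mem_empty_iff_false, iff_false]
        rintro ⟨h1, h2, _⟩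
        exact hc ⟨h1, h2⟩
      rw [e]; exact MeasurableSet.empty
  | succ h ih =>
    simp only [F]
    refine Finset.measurableSet_biUnion _ fun a _ => Finset.measurableSet_biUnion _ fun a' _ => ?_
    refine MeasurableSet.inter (MeasurableSet.inter (ih a a') ?_) ?_
    · exact (measurable_pi_apply ((h : ℤ) + 1)) (measurableSet_Nb false a c)
    · exact (measurable_pi_apply (-((h : ℤ) + 1))) (measurableSet_Nb true a' c')

lemma Q_F_succ (m h c c' : ℕ) :
    Q.real (F m (h + 1) c c') ≤ ∑ a ∈ range (m + 1), ∑ a' ∈ range (m + 1),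
      Q.real (F m h a a') * pp a c * pp a' c' := by
  have hbound : ∀ a a', Q.real ((F m h a a' ∩ {η | η ((h : ℤ) + 1) ∈ {β | Nb false β a c}}) ∩
        {η | η (-((h : ℤ) + 1)) ∈ {β | Nb true β a' c'}})
      = Q.real (F m h a a') * pp a c * pp a' c' := by
    intro a a'
    have m1 : MeasurableSet (F m h a a' ∩ {η | η ((h : ℤ) + 1) ∈ {β | Nb false β a c}}) :=
      (measurableSet_F m h a a').inter
        ((measurable_pi_apply ((h : ℤ) + 1)) (measurableSet_Nb false a c))
    have d1 : ∀ η β, Function.update η (-((h : ℤ) + 1)) β ∈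
        (F m h a a' ∩ {η | η ((h : ℤ) + 1) ∈ {β | Nb false β a c}}) ↔
        η ∈ (F m h a a' ∩ {η | η ((h : ℤ) + 1) ∈ {β | Nb false β a c}}) := by
      intro η β
      simp only [Set.mem_inter_iff]
      rw [F_dep m h a a' _ (by rw [abs_neg, abs_of_nonneg (by positivity)]; omega)]
      simp only [Set.mem_ofPred_eq]
      rw [Function.update_of_ne (by omega)]
    have d2 : ∀ η β, Function.update η ((h : ℤ) + 1) β ∈ F m h a a' ↔ η ∈ F m h a a' := by
      intro η β
      exact F_dep m h a a' _ (by rw [abs_of_nonneg (by positivity)]; omega) η β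
    unfold Measure.real
    rw [Q_row m1 _ d1 (measurableSet_Nb true a' c'), Q_row (measurableSet_F m h a a') _ d2
      (measurableSet_Nb false a c), ENNReal.toReal_mul, ENNReal.toReal_mul]
    rw [← P_Nb false a c, ← P_Nb true a' c']
    rfl
  simp only [F]
  refine (measureReal_biUnion_finset_le _ _).trans (sum_le_sum fun a _ => ?_)
  refine (measureReal_biUnion_finset_le _ _).trans (sum_le_sum fun a' _ => ?_)
  exact (hbound a a').le

/-- The weighted mass is nonincreasing. -/
lemma weighted_mass (m : ℕ) {s : ℝ} (hs : 0 < s) (hs2 : 2 * ((m : ℝ) + 1) ≤ s ^ 2) (h : ℕ) :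
    ∑ c ∈ range (m + 1), ∑ c' ∈ range (m + 1),
      Q.real (F m h c c') * ((m : ℝ) + s - c) * ((m : ℝ) + s - c')
      ≤ ((2 * m).choose m : ℝ) / 2 ^ (2 * m) * s ^ 2 := by
  induction h with
  | zero =>
    have hz : ∀ c ∈ range (m + 1), ∀ c' ∈ range (m + 1), ¬ (c = m ∧ c' = m) →
        Q.real (F m 0 c c') = 0 := by
      intro c _ c' _ hc
      have e : F m 0 c c' = ∅ := by
        ext η
        simp only [F, Set.mem_ofPred_eq, Set.mem_empty_iff_false, iff_false]
        rintro ⟨h1, h2, _⟩
        exact hc ⟨h1, h2⟩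
      rw [e, measureReal_empty]
    have hm : Q.real (F m 0 m m) = ((2 * m).choose m : ℝ) / 2 ^ (2 * m) := by
      have e : F m 0 m m = Set.univ ∩ {η : ℤ → ℕ → Bool | η 0 ∈ {β | cb true β (2 * m) = m}} := by
        ext η; simp [F]
      unfold Measure.real
      rw [e, Q_row MeasurableSet.univ 0 (fun _ _ => by simp) (measurableSet_cb true (2 * m) m),
        measure_univ, one_mul]
      exact P_cb true (2 * m) m
    rw [sum_eq_single m, sum_eq_single m, hm]
    · have : (m : ℝ) + s - m = s := by ring
      rw [this]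
      exact le_of_eq (by ring)
    · intro c' hc' hne
      rw [hz m (by simp) c' hc' (by tauto)]; ring
    · intro hc; exact absurd (by simp) hc
    · intro c hc hne
      refine sum_eq_zero fun c' hc' => ?_
      rw [hz c hc c' hc' (by tauto)]; ring
    · intro hc; exact absurd (by simp) hc
  | succ h ih =>
    refine le_trans ?_ ih
    have hpos : ∀ c ∈ range (m + 1), 0 ≤ (m : ℝ) + s - c := by
      intro c hc
      rw [mem_range] at hc
      have : (c : ℝ) ≤ m := by exact_mod_cast Nat.lt_succ_iff.1 hc
      linarith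
    calc ∑ c ∈ range (m + 1), ∑ c' ∈ range (m + 1),
          Q.real (F m (h + 1) c c') * ((m : ℝ) + s - c) * ((m : ℝ) + s - c')
        ≤ ∑ c ∈ range (m + 1), ∑ c' ∈ range (m + 1),
          (∑ a ∈ range (m + 1), ∑ a' ∈ range (m + 1),
            Q.real (F m h a a') * pp a c * pp a' c') * ((m : ℝ) + s - c) * ((m : ℝ) + s - c') := by
          refine sum_le_sum fun c hc => sum_le_sum fun c' hc' => ?_
          exact mul_le_mul_of_nonneg_right
            (mul_le_mul_of_nonneg_right (Q_F_succ m h c c') (hpos c hc)) (hpos c' hc')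
      _ = ∑ a ∈ range (m + 1), ∑ a' ∈ range (m + 1), Q.real (F m h a a') *
            (∑ c ∈ range (m + 1), pp a c * ((m : ℝ) + s - c)) *
            (∑ c' ∈ range (m + 1), pp a' c' * ((m : ℝ) + s - c')) := by
          have e1 : ∀ a a', Q.real (F m h a a') *
              (∑ c ∈ range (m + 1), pp a c * ((m : ℝ) + s - c)) *
              (∑ c' ∈ range (m + 1), pp a' c' * ((m : ℝ) + s - c'))
              = ∑ c ∈ range (m + 1), ∑ c' ∈ range (m + 1), Q.real (F m h a a') * pp a c * pp a' c' *
                ((m : ℝ) + s - c) * ((m : ℝ) + s - c') := by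
            intro a a'
            rw [mul_assoc, sum_mul_sum, mul_sum]
            refine sum_congr rfl fun c _ => ?_
            rw [mul_sum]
            refine sum_congr rfl fun c' _ => ?_
            ring
          simp only [e1]
          have e2 : ∀ c c', (∑ a ∈ range (m + 1), ∑ a' ∈ range (m + 1),
              Q.real (F m h a a') * pp a c * pp a' c') * ((m : ℝ) + s - c) * ((m : ℝ) + s - c')
              = ∑ a ∈ range (m + 1), ∑ a' ∈ range (m + 1), Q.real (F m h a a') * pp a c * pp a' c' *
                ((m : ℝ) + s - c) * ((m : ℝ) + s - c') := by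
            intro c c'
            rw [sum_mul, sum_mul]
            refine sum_congr rfl fun a _ => ?_
            rw [sum_mul, sum_mul]
          simp only [e2]
          -- exchange the order of summation
          have e3 : ∀ f : ℕ → ℕ → ℕ → ℕ → ℝ,
              ∑ c ∈ range (m + 1), ∑ c' ∈ range (m + 1), ∑ a ∈ range (m + 1),
                ∑ a' ∈ range (m + 1), f c c' a a'
              = ∑ a ∈ range (m + 1), ∑ a' ∈ range (m + 1), ∑ c ∈ range (m + 1),
                ∑ c' ∈ range (m + 1), f c c' a a' := by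
            intro f
            have s1 : ∀ c, ∑ c' ∈ range (m + 1), ∑ a ∈ range (m + 1),
                ∑ a' ∈ range (m + 1), f c c' a a'
                = ∑ a ∈ range (m + 1), ∑ a' ∈ range (m + 1),
                  ∑ c' ∈ range (m + 1), f c c' a a' := by
              intro c
              rw [sum_comm]
              exact sum_congr rfl fun a _ => sum_comm
            simp only [s1]
            rw [sum_comm]
            exact sum_congr rfl fun a _ => sum_comm
          exact e3 _
      _ ≤ ∑ a ∈ range (m + 1), ∑ a' ∈ range (m + 1),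
            Q.real (F m h a a') * ((m : ℝ) + s - a) * ((m : ℝ) + s - a') := by
          refine sum_le_sum fun a ha => sum_le_sum fun a' ha' => ?_
          have h1 := superharmonic (Nat.lt_succ_iff.1 (mem_range.1 ha)) hs hs2
          have h2 := superharmonic (Nat.lt_succ_iff.1 (mem_range.1 ha')) hs hs2
          have n2 : 0 ≤ ∑ c' ∈ range (m + 1), pp a' c' * ((m : ℝ) + s - c') :=
            sum_nonneg fun c' hc' => mul_nonneg (pp_nonneg _ _) (hpos c' hc')
          have q : 0 ≤ Q.real (F m h a a') := measureReal_nonneg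
          refine mul_le_mul (mul_le_mul_of_nonneg_left h1 q) h2 n2 ?_
          exact mul_nonneg q (hpos a ha)

/-- Probability of the two-sided chains which die out. -/
lemma Q_F_zero (m h : ℕ) {s : ℝ} (hs : 0 < s) (hs2 : 2 * ((m : ℝ) + 1) ≤ s ^ 2) :
    Q.real (F m h 0 0) * ((m : ℝ) + s) ^ 2 ≤ ((2 * m).choose m : ℝ) / 2 ^ (2 * m) * s ^ 2 := by
  refine le_trans ?_ (weighted_mass m hs hs2 h)
  have hpos : ∀ c ∈ range (m + 1), 0 ≤ (m : ℝ) + s - c := by
    intro c hc
    rw [mem_range] at hc
    have : (c : ℝ) ≤ m := by exact_mod_cast Nat.lt_succ_iff.1 hc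
    linarith
  have h1 : Q.real (F m h 0 0) * ((m : ℝ) + s) ^ 2
      = Q.real (F m h 0 0) * ((m : ℝ) + s - (0 : ℕ)) * ((m : ℝ) + s - (0 : ℕ)) := by
    push_cast; ring
  rw [h1]
  refine le_trans ?_ (single_le_sum (f := fun c => ∑ c' ∈ range (m + 1),
      Q.real (F m h c c') * ((m : ℝ) + s - c) * ((m : ℝ) + s - c')) (fun c hc => ?_)
      (show 0 ∈ range (m + 1) by simp))
  · exact single_le_sum (f := fun c' =>
      Q.real (F m h 0 c') * ((m : ℝ) + s - (0 : ℕ)) * ((m : ℝ) + s - c')) (fun c' hc' =>
        mul_nonneg (mul_nonneg measureReal_nonneg (hpos 0 (by simp))) (hpos c' hc'))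
      (show 0 ∈ range (m + 1) by simp)
  · exact sum_nonneg fun c' hc' =>
      mul_nonneg (mul_nonneg measureReal_nonneg (hpos c hc)) (hpos c' hc')

lemma F_zero_mono (m : ℕ) : Monotone fun h => F m h 0 0 := by
  refine monotone_nat_of_le_succ fun h η hη => ?_
  simp only [F, Set.mem_iUnion, Set.mem_inter_iff]
  refine ⟨0, by simp, 0, by simp, ⟨hη, ?_⟩, ?_⟩
  · simp [Nb, cb_zero]
  · simp [Nb, cb_zero]

/-- The bad event at level `m`. -/
def Bad (m : ℕ) : Set (ℕ → Bool) := {ω | ∃ n, BadAt ω m n}

lemma measurableSet_Bad (m : ℕ) : MeasurableSet (Bad m) := by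
  have e : Bad m = ⋃ n, {ω | BadAt ω m n} := by ext ω; simp [Bad]
  rw [e]
  refine MeasurableSet.iUnion fun n => ?_
  have : Measurable fun ω : ℕ → Bool => BadAt ω m n := by
    refine measurable_of_prefix _ n fun ω ω' h => ?_
    unfold BadAt
    rw [S_congr h, U_congr h, D_congr h]
    simp only [U_congr h, D_congr h]
  exact measurableSet_setOfPred.2 this

lemma bad_subset (m : ℕ) : psi ⁻¹' Bad m ⊆ ⋃ h, F m h 0 0 := by
  rintro η ⟨n, h0, hU0, hD0, hU, hD⟩
  set ω := psi η with hω
  have hS : (st η n).1 = 0 := by rw [← S_psi]; exact h0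
  have key : ∀ h : ℕ, η ∈ F m h (U ω (h : ℤ) n) (D ω (-(h : ℤ)) n) := by
    intro h
    induction h with
    | zero =>
      simp only [F, Set.mem_ofPred_eq, Nat.cast_zero, neg_zero]
      refine ⟨hU0, hD0, ?_⟩
      have h1 := (cb_used η n 0).1
      have h2 := used_eq η n 0
      rw [← hω, hU0] at h1
      rw [← hω, hU0, hD0] at h2
      rw [h2] at h1
      rw [two_mul]; exact h1
    | succ h ih =>
      simp only [F, Set.mem_iUnion, Set.mem_inter_iff, Set.mem_ofPred_eq]
      have hle1 := hU (h : ℤ) (by positivity)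
      have hle2 := hD (-(h : ℤ)) (by omega)
      refine ⟨U ω (h : ℤ) n, mem_range.2 (by omega), D ω (-(h : ℤ)) n, mem_range.2 (by omega),
        ⟨ih, ?_⟩, ?_⟩
      · -- the stack at `h + 1`
        have hbal := edge_balance ω (x := (h : ℤ)) (by positivity) n
        rw [h0, if_neg (by omega), Nat.add_zero] at hbal
        have hused := used_eq η n ((h : ℤ) + 1)
        rw [← hω] at hused
        have hcast : ((h + 1 : ℕ) : ℤ) = (h : ℤ) + 1 := by push_cast; ring
        rw [hcast]
        have htot : U ω (h : ℤ) n + U ω ((h : ℤ) + 1) n = (st η n).2 ((h : ℤ) + 1) := by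
          rw [hused, hbal]; ring
        unfold Nb
        rw [htot]
        refine ⟨?_, fun hp => ?_⟩
        · rw [(cb_used η n ((h : ℤ) + 1)).2, ← hω, hbal]
        · exact (last_exit η n ((h : ℤ) + 1) hp).1 (by rw [hS]; omega)
      · -- the stack at `-(h + 1)`
        have hbal := edge_balance_neg ω (x := -(h : ℤ)) (by omega) n
        rw [h0, if_neg (by omega), Nat.add_zero] at hbal
        have e : -(h : ℤ) - 1 = -((h : ℤ) + 1) := by ring
        rw [e] at hbal
        have hused := used_eq η n (-((h : ℤ) + 1))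
        rw [← hω] at hused
        have hcast : -((h + 1 : ℕ) : ℤ) = -((h : ℤ) + 1) := by push_cast; ring
        rw [hcast]
        have htot : D ω (-(h : ℤ)) n + D ω (-((h : ℤ) + 1)) n = (st η n).2 (-((h : ℤ) + 1)) := by
          rw [hused, hbal]
        unfold Nb
        rw [htot]
        refine ⟨?_, fun hp => ?_⟩
        · rw [(cb_used η n (-((h : ℤ) + 1))).1, ← hω, hbal]
        · exact (last_exit η n (-((h : ℤ) + 1)) hp).2 (by rw [hS]; omega)
  have hn := key n
  have z1 : U ω (n : ℤ) n = 0 := U_eq_zero_of_lt ω le_rfl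
  have z2 : D ω (-(n : ℤ)) n = 0 := by
    rw [← U_flp]; exact U_eq_zero_of_lt (flp ω) le_rfl
  rw [z1, z2] at hn
  exact Set.mem_iUnion.2 ⟨n, hn⟩

/-- The probability of a bad tie at level `m`. -/
lemma P_Bad_le (m : ℕ) (hm : 0 < m) : P.real (Bad m) ≤ 4 / ((m : ℝ) ^ (3 / 2 : ℝ)) := by
  have hm' : (1 : ℝ) ≤ m := by exact_mod_cast hm
  set s : ℝ := Real.sqrt (2 * ((m : ℝ) + 1)) with hs
  have hs0 : 0 < s := Real.sqrt_pos.2 (by positivity)
  have hs2 : s ^ 2 = 2 * ((m : ℝ) + 1) := Real.sq_sqrt (by positivity)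
  have h1 : P.real (Bad m) = Q.real (psi ⁻¹' Bad m) := by
    unfold Measure.real
    rw [← map_psi, Measure.map_apply measurable_psi (measurableSet_Bad m)]
  have h2 : Q.real (psi ⁻¹' Bad m) ≤ Q.real (⋃ h, F m h 0 0) := measureReal_mono (bad_subset m)
  set K : ℝ := ((2 * m).choose m : ℝ) / 2 ^ (2 * m) * s ^ 2 / ((m : ℝ) + s) ^ 2 with hK
  have h3 : Q.real (⋃ h, F m h 0 0) ≤ K := by
    have hlim := tendsto_measure_iUnion_atTop (μ := Q) (F_zero_mono m)
    have hlim' : Tendsto (fun h => Q.real (F m h 0 0)) atTop (𝓝 (Q.real (⋃ h, F m h 0 0))) :=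
      (ENNReal.tendsto_toReal (measure_ne_top _ _)).comp hlim
    refine le_of_tendsto' hlim' fun h => ?_
    rw [hK, le_div_iff₀ (by positivity)]
    exact Q_F_zero m h hs0 hs2.ge
  have h4 : K ≤ 4 / ((m : ℝ) ^ (3 / 2 : ℝ)) := by
    set a : ℝ := ((2 * m).choose m : ℝ) / 2 ^ (2 * m) with ha
    have ha0 : 0 ≤ a := by positivity
    have ha1 : a ^ 2 * (2 * m + 1) ≤ 1 := central_bound m
    have ha2 : a ≤ 1 / Real.sqrt m := by
      rw [le_div_iff₀ (Real.sqrt_pos.2 (by positivity))]
      have h5 : (a * Real.sqrt m) ^ 2 ≤ 1 := by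
        rw [mul_pow, Real.sq_sqrt (by positivity)]
        nlinarith [sq_nonneg a]
      exact (sq_le_one_iff₀ (by positivity)).1 h5
    have e1 : (m : ℝ) ^ (3 / 2 : ℝ) = m * Real.sqrt m := by
      rw [show (3 / 2 : ℝ) = 1 + 1 / 2 by norm_num, Real.rpow_add (by positivity), Real.rpow_one,
        ← Real.sqrt_eq_rpow]
    rw [hK, e1, hs2]
    have hsq : 0 < Real.sqrt m := Real.sqrt_pos.2 (by positivity)
    calc a * (2 * ((m : ℝ) + 1)) / ((m : ℝ) + s) ^ 2
        ≤ (1 / Real.sqrt m) * (2 * ((m : ℝ) + 1)) / ((m : ℝ)) ^ 2 := by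
          refine div_le_div₀ (by positivity) ?_ (by positivity) ?_
          · exact mul_le_mul_of_nonneg_right ha2 (by positivity)
          · exact pow_le_pow_left₀ (by positivity) (by linarith) 2
      _ ≤ 4 / (m * Real.sqrt m) := by
          rw [div_le_div_iff₀ (by positivity) (by positivity)]
          have e2 : 1 / Real.sqrt m * (2 * ((m : ℝ) + 1)) * (m * Real.sqrt m)
              = 2 * ((m : ℝ) + 1) * m := by
            field_simp
          rw [e2]
          nlinarith
  rw [h1]
  exact h2.trans (h3.trans h4)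

/-- Almost surely there are only finitely many bad ties. -/
lemma ae_not_bad : ∀ᵐ ω ∂P, ∀ᶠ m in atTop, ω ∉ Bad m := by
  refine ae_eventually_notMem ?_
  have hsum : Summable fun m : ℕ => P.real (Bad m) := by
    have h1 : Summable fun m : ℕ => 4 / ((m : ℝ) ^ (3 / 2 : ℝ)) := by
      have := (Real.summable_one_div_nat_rpow (p := 3 / 2)).2 (by norm_num)
      simpa [div_eq_mul_inv] using this.mul_left 4
    have h2 : Summable fun m : ℕ => P.real (Bad (m + 1)) :=
      Summable.of_nonneg_of_le (fun m => measureReal_nonneg) (fun m => P_Bad_le (m + 1) (by omega))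
        ((summable_nat_add_iff 1).2 h1)
    exact (summable_nat_add_iff 1).1 h2
  have e : ∀ m, P (Bad m) = ENNReal.ofReal (P.real (Bad m)) := fun m =>
    (ENNReal.ofReal_toReal (measure_ne_top _ _)).symm
  simp only [e]
  rw [← ENNReal.ofReal_tsum_of_nonneg (fun m => measureReal_nonneg) hsum]
  exact ENNReal.ofReal_ne_top

end Pool.Agent.Lib.MP_00be1d_pr
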