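import Pool.Agent.Lib.MP_00be1d_pr.Defs

/-!
# Deterministic facts about nearest-neighbour paths coded by Boolean sequences
-/

open Finset

namespace Pool.Agent.Lib.MP_00be1d_pr

/-- The increment coded by a Boolean. -/
def stp (b : Bool) : ℤ := if b then 1 else -1

/-- The path coded by a Boolean sequence. -/
def S (ω : ℕ → Bool) (n : ℕ) : ℤ := ∑ k ∈ range n, stp (ω k)

/-- Number of up steps from `x` among the first `n` steps. -/
def U (ω : ℕ → Bool) (x : ℤ) (n : ℕ) : ℕ :=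
  ((range n).filter fun k => S ω k = x ∧ ω k = true).card

/-- Number of down steps from `x` among the first `n` steps. -/
def D (ω : ℕ → Bool) (x : ℤ) (n : ℕ) : ℕ :=
  ((range n).filter fun k => S ω k = x ∧ ω k = false).card

lemma S_zero (ω : ℕ → Bool) : S ω 0 = 0 := by simp [S]

lemma S_succ (ω : ℕ → Bool) (n : ℕ) : S ω (n + 1) = S ω n + stp (ω n) := by
  simp [S, sum_range_succ]

lemma stp_true : stp true = 1 := rfl
lemma stp_false : stp false = -1 := rfl

lemma U_zero (ω : ℕ → Bool) (x : ℤ) : U ω x 0 = 0 := by simp [U]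
lemma D_zero (ω : ℕ → Bool) (x : ℤ) : D ω x 0 = 0 := by simp [D]

lemma U_succ (ω : ℕ → Bool) (x : ℤ) (n : ℕ) :
    U ω x (n + 1) = U ω x n + if S ω n = x ∧ ω n = true then 1 else 0 := by
  unfold U
  rw [range_add_one, filter_insert]
  split_ifs with h
  · rw [card_insert_of_notMem (by simp)]
  · rfl

lemma D_succ (ω : ℕ → Bool) (x : ℤ) (n : ℕ) :
    D ω x (n + 1) = D ω x n + if S ω n = x ∧ ω n = false then 1 else 0 := by
  unfold D
  rw [range_add_one, filter_insert]
  split_ifs with h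
  · rw [card_insert_of_notMem (by simp)]
  · rfl

lemma U_mono (ω : ℕ → Bool) (x : ℤ) : Monotone (U ω x) :=
  monotone_nat_of_le_succ fun n => by rw [U_succ]; omega

lemma D_mono (ω : ℕ → Bool) (x : ℤ) : Monotone (D ω x) :=
  monotone_nat_of_le_succ fun n => by rw [D_succ]; omega

lemma U_le (ω : ℕ → Bool) (x : ℤ) (n : ℕ) : U ω x n ≤ n := by
  unfold U
  exact (card_filter_le _ _).trans (by simp)

lemma abs_S_le (ω : ℕ → Bool) (n : ℕ) : |S ω n| ≤ n := by
  induction n with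
  | zero => simp [S]
  | succ n ih =>
    rw [S_succ]
    have : |stp (ω n)| = 1 := by cases ω n <;> simp [stp]
    calc |S ω n + stp (ω n)| ≤ |S ω n| + |stp (ω n)| := abs_add_le _ _
      _ ≤ ((n + 1 : ℕ) : ℤ) := by push_cast; omega

/-- The flipped sequence. -/
def flp (ω : ℕ → Bool) : ℕ → Bool := fun k => !(ω k)

lemma flp_flp (ω : ℕ → Bool) : flp (flp ω) = ω := by funext k; simp [flp]

lemma stp_not (b : Bool) : stp (!b) = -stp b := by cases b <;> simp [stp]

lemma S_flp (ω : ℕ → Bool) (n : ℕ) : S (flp ω) n = -S ω n := by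
  simp only [S, flp, stp_not, sum_neg_distrib]

lemma U_flp (ω : ℕ → Bool) (x : ℤ) (n : ℕ) : U (flp ω) x n = D ω (-x) n := by
  unfold U D
  congr 1
  refine filter_congr fun k _ => ?_
  rw [S_flp]
  simp only [flp, Bool.not_eq_true']
  constructor
  · rintro ⟨h1, h2⟩; exact ⟨by omega, h2⟩
  · rintro ⟨h1, h2⟩; exact ⟨by omega, h2⟩

lemma D_flp (ω : ℕ → Bool) (x : ℤ) (n : ℕ) : D (flp ω) x n = U ω (-x) n := by
  have := U_flp (flp ω) (-x) n
  rw [flp_flp, neg_neg] at this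
  exact this.symm

/-- Edge balance on the positive side. -/
lemma edge_balance (ω : ℕ → Bool) {x : ℤ} (hx : 0 ≤ x) (n : ℕ) :
    U ω x n = D ω (x + 1) n + if x + 1 ≤ S ω n then 1 else 0 := by
  induction n with
  | zero => simp [U_zero, D_zero, S_zero]; omega
  | succ n ih =>
    rw [U_succ, D_succ, S_succ, ih]
    clear ih
    cases h : ω n
    · rw [stp_false]
      by_cases h1 : x + 1 ≤ S ω n <;> by_cases h2 : S ω n = x + 1 <;>
        by_cases h3 : x + 1 ≤ S ω n + -1 <;> simp [h1, h2, h3] <;> omega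
    · rw [stp_true]
      by_cases h1 : x + 1 ≤ S ω n <;> by_cases h2 : S ω n = x <;>
        by_cases h3 : x + 1 ≤ S ω n + 1 <;> simp [h1, h2, h3] <;> omega

/-- Edge balance on the negative side. -/
lemma edge_balance_neg (ω : ℕ → Bool) {x : ℤ} (hx : x ≤ 0) (n : ℕ) :
    D ω x n = U ω (x - 1) n + if S ω n ≤ x - 1 then 1 else 0 := by
  have h := edge_balance (flp ω) (x := -x) (by omega) n
  rw [U_flp, D_flp, S_flp] at h
  simp only [neg_neg, neg_add_rev] at h
  rw [h]
  have e1 : -1 + x = x - 1 := by ring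
  rw [e1]
  congr 1
  split_ifs <;> omega

lemma U_eq_zero_of_lt (ω : ℕ → Bool) {x : ℤ} {n : ℕ} (hx : (n : ℤ) ≤ x) : U ω x n = 0 := by
  unfold U
  rw [card_eq_zero, filter_eq_empty_iff]
  intro k hk
  rw [mem_range] at hk
  have := abs_S_le ω k
  rintro ⟨h1, -⟩
  rw [h1] at this
  have := le_abs_self x
  omega

/-- The maximal outward count on the positive side. -/
def Mp (ω : ℕ → Bool) (n : ℕ) : ℕ := (range (n + 1)).sup fun x => U ω (x : ℤ) n

/-- The maximal outward count on the negative side. -/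
def Mm (ω : ℕ → Bool) (n : ℕ) : ℕ := Mp (flp ω) n

lemma Mp_flp (ω : ℕ → Bool) (n : ℕ) : Mp (flp ω) n = Mm ω n := rfl
lemma Mm_flp (ω : ℕ → Bool) (n : ℕ) : Mm (flp ω) n = Mp ω n := by rw [Mm, flp_flp]

lemma U_le_Mp (ω : ℕ → Bool) {x : ℤ} (hx : 0 ≤ x) (n : ℕ) : U ω x n ≤ Mp ω n := by
  rcases lt_or_ge (n : ℤ) x with h | h
  · rw [U_eq_zero_of_lt ω h.le]; omega
  · obtain ⟨y, rfl⟩ := Int.eq_ofNat_of_zero_le hx
    refine le_sup (f := fun x : ℕ => U ω (x : ℤ) n) ?_
    rw [mem_range]; omega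

lemma exists_eq_Mp (ω : ℕ → Bool) (n : ℕ) : ∃ x : ℤ, 0 ≤ x ∧ U ω x n = Mp ω n := by
  obtain ⟨x, _, hx⟩ := exists_mem_eq_sup (range (n + 1)) ⟨0, by simp⟩ fun x : ℕ => U ω (x : ℤ) n
  exact ⟨x, by omega, hx.symm⟩

lemma Mp_le (ω : ℕ → Bool) {n m : ℕ} (h : ∀ x : ℤ, 0 ≤ x → U ω x n ≤ m) : Mp ω n ≤ m := by
  obtain ⟨x, hx, e⟩ := exists_eq_Mp ω n
  rw [← e]; exact h x hx

lemma D_le_Mm (ω : ℕ → Bool) {x : ℤ} (hx : x ≤ 0) (n : ℕ) : D ω x n ≤ Mm ω n := by
  have := U_le_Mp (flp ω) (x := -x) (by omega) n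
  rw [U_flp, neg_neg] at this
  exact this

lemma exists_eq_Mm (ω : ℕ → Bool) (n : ℕ) : ∃ x : ℤ, x ≤ 0 ∧ D ω x n = Mm ω n := by
  obtain ⟨x, hx, e⟩ := exists_eq_Mp (flp ω) n
  rw [U_flp] at e
  exact ⟨-x, by omega, e⟩

lemma Mp_mono (ω : ℕ → Bool) : Monotone (Mp ω) := by
  intro n m h
  refine Mp_le ω fun x hx => ?_
  exact (U_mono ω x h).trans (U_le_Mp ω hx m)

lemma Mm_mono (ω : ℕ → Bool) : Monotone (Mm ω) := Mp_mono (flp ω)

lemma Mp_le_self (ω : ℕ → Bool) (n : ℕ) : Mp ω n ≤ n := Mp_le ω fun x _ => U_le ω x n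

lemma Mm_le_self (ω : ℕ → Bool) (n : ℕ) : Mm ω n ≤ n := Mp_le_self _ n

lemma Mp_succ_le (ω : ℕ → Bool) (n : ℕ) : Mp ω (n + 1) ≤ Mp ω n + 1 := by
  refine Mp_le ω fun x hx => ?_
  rw [U_succ]
  have := U_le_Mp ω hx n
  split_ifs <;> omega

lemma Mm_succ_le (ω : ℕ → Bool) (n : ℕ) : Mm ω (n + 1) ≤ Mm ω n + 1 := Mp_succ_le _ n

/-- If the positive maximum increases at step `n`, the path is on the nonnegative side at time `n`
and steps up from a site which attains the positive maximum. -/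
lemma Mp_succ_lt (ω : ℕ → Bool) {n : ℕ} (h : Mp ω n < Mp ω (n + 1)) :
    0 ≤ S ω n ∧ ω n = true ∧ U ω (S ω n) n = Mp ω n ∧ U ω (S ω n) (n + 1) = Mp ω (n + 1) := by
  obtain ⟨x, hx, e⟩ := exists_eq_Mp ω (n + 1)
  have h1 := U_le_Mp ω hx n
  have h2 := Mp_succ_le ω n
  have h3 := U_succ ω x n
  by_cases hc : S ω n = x ∧ ω n = true
  · rw [if_pos hc] at h3
    obtain ⟨rfl, hc2⟩ := hc
    exact ⟨hx, hc2, by omega, e⟩
  · rw [if_neg hc] at h3
    omega

lemma Mm_succ_lt (ω : ℕ → Bool) {n : ℕ} (h : Mm ω n < Mm ω (n + 1)) :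
    S ω n ≤ 0 ∧ ω n = false ∧ D ω (S ω n) n = Mm ω n ∧ D ω (S ω n) (n + 1) = Mm ω (n + 1) := by
  obtain ⟨h1, h2, h3, h4⟩ := Mp_succ_lt (flp ω) h
  rw [S_flp] at h1 h3 h4
  rw [U_flp, neg_neg] at h3 h4
  refine ⟨by omega, ?_, h3, h4⟩
  simpa [flp] using h2

/-- Between a time at which the positive side leads and a later time at which the negative side
leads there is a tie just before an outward step of the negative side. -/
lemma exists_tie (ω : ℕ → Bool) {n₁ n₂ : ℕ} (h12 : n₁ ≤ n₂) (h1 : Mm ω n₁ ≤ Mp ω n₁)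
    (h2 : Mp ω n₂ < Mm ω n₂) :
    ∃ n, n₁ ≤ n ∧ n < n₂ ∧ Mp ω n = Mm ω n ∧ S ω n ≤ 0 ∧ D ω (S ω n) n = Mm ω n := by
  classical
  have hex : ∃ n, n₁ ≤ n ∧ Mp ω n < Mm ω n := ⟨n₂, h12, h2⟩
  set n' := Nat.find hex with hn'
  obtain ⟨ha, hb⟩ := Nat.find_spec hex
  rw [← hn'] at ha hb
  have hle : n' ≤ n₂ := Nat.find_min' hex ⟨h12, h2⟩
  have hne : n₁ ≠ n' := by
    intro e
    rw [e] at h1
    omega
  obtain ⟨n, hn⟩ : ∃ n, n' = n + 1 := ⟨n' - 1, by omega⟩
  have hmin := Nat.find_min hex (m := n) (by omega)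
  have hge : Mm ω n ≤ Mp ω n := by
    by_contra hc
    exact hmin ⟨by omega, by omega⟩
  rw [hn] at hb
  have i1 := Mp_mono ω (Nat.le_succ n)
  have i2 := Mm_succ_le ω n
  simp only [Nat.succ_eq_add_one] at i1
  have hlt : Mm ω n < Mm ω (n + 1) := by omega
  obtain ⟨j1, _, j3, _⟩ := Mm_succ_lt ω hlt
  exact ⟨n, by omega, by omega, by omega, j1, j3⟩

/-- One-side local time in terms of `U` and `D`. -/
def xi (ω : ℕ → Bool) (x : ℤ) (n : ℕ) : ℕ := max (U ω x n) (D ω x n)

lemma xi_le_max (ω : ℕ → Bool) (x : ℤ) (n : ℕ) : xi ω x n ≤ max (Mp ω n) (Mm ω n) := by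
  unfold xi
  refine max_le ?_ ?_
  · rcases le_or_gt 0 x with hx | hx
    · exact (U_le_Mp ω hx n).trans (le_max_left _ _)
    · -- an upcrossing from a negative site is an inward crossing
      have h := edge_balance_neg ω (x := x + 1) (by omega) n
      have e : x + 1 - 1 = x := by ring
      rw [e] at h
      have h2 := D_le_Mm ω (x := x + 1) (by omega) n
      have : U ω x n ≤ Mm ω n := by omega
      exact this.trans (le_max_right _ _)
  · rcases le_or_gt x 0 with hx | hx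
    · exact (D_le_Mm ω hx n).trans (le_max_right _ _)
    · have h := edge_balance ω (x := x - 1) (by omega) n
      have e : x - 1 + 1 = x := by ring
      rw [e] at h
      have h2 := U_le_Mp ω (x := x - 1) (by omega) n
      have : D ω x n ≤ Mp ω n := by omega
      exact this.trans (le_max_left _ _)

/-- The bad event at level `m`: at a return to `0` both edges adjacent to `0` have been crossed `m`
times outwards and all the other edges at most `m` times. -/
def BadAt (ω : ℕ → Bool) (m n : ℕ) : Prop :=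
  S ω n = 0 ∧ U ω 0 n = m ∧ D ω 0 n = m ∧ (∀ x : ℤ, 0 ≤ x → U ω x n ≤ m) ∧
    ∀ x : ℤ, x ≤ 0 → D ω x n ≤ m

/-- At a tie, either there are four favorites or the tie is bad. -/
lemma tie_four_or_bad (ω : ℕ → Bool) {n : ℕ} (h1 : Mp ω n = Mm ω n) (h2 : S ω n ≤ 0)
    (h3 : D ω (S ω n) n = Mm ω n) :
    (∃ s : Finset ℤ, s.card = 4 ∧ ∀ x ∈ s, ∀ y, xi ω y n ≤ xi ω x n) ∨
      BadAt ω (Mp ω n) n := by
  obtain ⟨x, hx, hxe⟩ := exists_eq_Mp ω n
  set y := S ω n with hy
  have hU : U ω x n = D ω (x + 1) n := by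
    have := edge_balance ω hx n
    rw [if_neg (by omega)] at this
    omega
  have hD : D ω y n = U ω (y - 1) n := by
    have := edge_balance_neg ω h2 n
    rw [if_neg (by omega)] at this
    omega
  have hmax : ∀ z, xi ω z n ≤ Mp ω n := fun z => by
    have := xi_le_max ω z n
    rw [h1, max_self] at this
    rw [h1]; exact this
  have f1 : Mp ω n ≤ xi ω x n := by rw [← hxe]; exact le_max_left _ _
  have f2 : Mp ω n ≤ xi ω (x + 1) n := by rw [← hxe, hU]; exact le_max_right _ _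
  have f3 : Mp ω n ≤ xi ω y n := by rw [h1, ← h3]; exact le_max_right _ _
  have f4 : Mp ω n ≤ xi ω (y - 1) n := by rw [h1, ← h3, hD]; exact le_max_left _ _
  by_cases hxy : x = y
  · -- both are zero
    right
    have hx0 : x = 0 := by omega
    have hy0 : y = 0 := by omega
    refine ⟨hy0, by rw [← hx0]; exact hxe, ?_, fun z hz => U_le_Mp ω hz n, fun z hz => ?_⟩
    · rw [h1, ← h3, hy0]
    · rw [h1]; exact D_le_Mm ω hz n
  · left
    refine ⟨{x, x + 1, y, y - 1}, ?_, ?_⟩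
    · rw [card_insert_of_notMem, card_insert_of_notMem, card_insert_of_notMem, card_singleton]
      · simp only [mem_singleton]
        omega
      · simp only [mem_insert, mem_singleton, not_or]
        omega
      · simp only [mem_insert, mem_singleton, not_or]
        omega
    · intro z hz w
      simp only [mem_insert, mem_singleton] at hz
      rcases hz with rfl | rfl | rfl | rfl
      · exact (hmax w).trans f1
      · exact (hmax w).trans f2
      · exact (hmax w).trans f3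
      · exact (hmax w).trans f4

end Pool.Agent.Lib.MP_00be1d_pr
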